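import Pool.Agent.Helper34.Coclass.Key3
import Pool.Agent.Helper11.Coclass.Count

/-!
# The index bound
-/

noncomputable section

namespace Pool.Agent.Helper34.Coclass

open Pool.Agent.Helper11.Coclass

variable {p : ℕ} [hp : Fact p.Prime] {P : Type} [Group P] [Finite P] {H : Subgroup P} {x : ℕ}

theorem card_Ys (cx : Ctx p H x) {i : ℕ} (hi : i + 1 < x) :
    p ^ 2 * Nat.card (Ms p H (i + 1)) = Nat.card (Ys p H i) := by
  have h1 := relIndex_Ys' cx (i := i) (by omega)
  have h2 := relIndex_Ms cx hi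
  have h3 := Subgroup.relIndex_mul_relIndex ⊥ _ _ bot_le (Gs_succ_le_Ys (p := p) H i)
  have h4 := Subgroup.relIndex_mul_relIndex ⊥ _ _ bot_le (Ms_le (p := p) H (i + 1))
  rw [Subgroup.relIndex_bot_left, Subgroup.relIndex_bot_left, h1] at h3
  rw [Subgroup.relIndex_bot_left, Subgroup.relIndex_bot_left, h2] at h4
  rw [← h3, ← h4]
  ring

theorem le_of_ctx (hp2 : p ≠ 2) (cx : Ctx p H x) {s : ℕ} (h : HasCoclass p P s) :
    x ≤ 2 * s + 1 := by
  have h0 : x / 2 ≤ s := by
    refine coclass_count cx.pgrp h (x / 2) (fun i => Ys p H (2 * i)) (fun i => Ms p H (2 * i + 1))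
      (fun i => inferInstance) (fun i => inferInstance) ?_ ?_ ?_
    · intro i hi
      rw [Subgroup.commutator_comm, Subgroup.commutator_le]
      intro z _ y hy
      exact key hp2 cx (2 * i) (by omega) y hy z
    · intro i hi
      exact (card_Ys cx (i := 2 * i) (by omega)).le
    · intro i hi
      refine (Ys_le H _).trans ?_
      exact Gs_succ_le_Ms H (2 * i + 1)
  omega

/-- **The index bound.** If a finite `p`-group of coclass `s`, `p` odd, has a subgroup `H` such that
the permutation module on the cosets of `H` over the prime field is uniserial, then the index of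
`H` is at most `p ^ (2 * s + 1)`. -/
theorem index_le (p : ℕ) [hp : Fact p.Prime] (hp2 : p ≠ 2) (s : ℕ) (P : Type) [Group P] [Finite P]
    (h : HasCoclass p P s) (H : Subgroup P) (hu : UniserialPerm p P (P ⧸ H)) :
    H.index ≤ p ^ (2 * s + 1) := by
  have hP : IsPGroup p P := IsPGroup.of_card h
  obtain ⟨x, hx⟩ := hP.index H
  have cx : Ctx p H x := ⟨hP, uni_of_uniserialPerm hu, hx⟩
  rw [hx]
  exact Nat.pow_le_pow_right hp.out.pos (le_of_ctx hp2 cx h)

theorem I3 (p : ℕ) [Fact p.Prime] (hp : p ≠ 2) (s : ℕ) :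
    ∃ A : ℕ, ∀ (P : Type) [Group P] [Finite P], HasCoclass p P s → ∀ H : Subgroup P,
      UniserialPerm p P (P ⧸ H) → H.index ≤ p ^ A :=
  ⟨2 * s + 1, fun P _ _ h H hu => index_le p hp s P h H hu⟩

end Pool.Agent.Helper34.Coclass
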