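import Pool.Agent.Helper34.Coclass.Fun
import Pool.Agent.Helper11.Coclass.Defs

/-!
# Uniserial permutation modules over the prime field: the chain of submodules
-/

set_option linter.unusedSectionVars false

noncomputable section

namespace Pool.Agent.Helper34.Coclass

open Module

variable {p : ℕ} [hp : Fact p.Prime] {P : Type*} [Group P] [Finite P]

/-- Stable submodules. -/
def Stab (A : Submodule (ZMod p) (P → ZMod p)) : Prop :=
  ∀ g : P, ∀ f ∈ A, tr (ZMod p) g f ∈ A

/-- The module of right `H`-invariant functions is uniserial. -/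
def Uni (p : ℕ) [Fact p.Prime] {P : Type*} [Group P] (H : Subgroup P) : Prop :=
  ∀ A B : Submodule (ZMod p) (P → ZMod p), A ≤ Inv (ZMod p) H → B ≤ Inv (ZMod p) H →
    Stab A → Stab B → A ≤ B ∨ B ≤ A

theorem Stab_J (H : Subgroup P) (n : ℕ) : Stab (J (ZMod p) H n) := fun g _ hf => tr_mem_J hf g

theorem Stab_Inv (H : Subgroup P) : Stab (Inv (ZMod p) H) := fun g _ hf => tr_mem_Inv hf g

theorem Stab_line {W : Submodule (ZMod p) (P → ZMod p)} (hW : Stab W) {v : P → ZMod p}
    (hv : ∀ g : P, tr (ZMod p) g v - v ∈ W) : Stab (W ⊔ Submodule.span (ZMod p) {v}) := by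
  intro g f hf
  obtain ⟨w, hw, z, hz, rfl⟩ := Submodule.mem_sup.1 hf
  obtain ⟨c, rfl⟩ := Submodule.mem_span_singleton.1 hz
  have : tr (ZMod p) g (w + c • v) = (tr (ZMod p) g w + c • (tr (ZMod p) g v - v)) + c • v := by
    rw [map_add, map_smul, smul_sub]
    abel
  rw [this]
  exact Submodule.add_mem_sup (add_mem (hW g w hw) (Submodule.smul_mem _ _ (hv g)))
    (Submodule.smul_mem _ _ (Submodule.mem_span_singleton_self v))

/-- A finite `p`-group has non-zero fixed vectors on a non-zero quotient module. -/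
theorem exists_fixed (hP : IsPGroup p P) {H : Subgroup P}
    {U : Submodule (ZMod p) (P → ZMod p)} (hU : U ≤ Inv (ZMod p) H) (hne : U ≠ Inv (ZMod p) H)
    (hst : Stab U) : ∃ v ∈ Inv (ZMod p) H, v ∉ U ∧ ∀ g : P, tr (ZMod p) g v - v ∈ U := by
  classical
  let V := ↥(Inv (ZMod p) H)
  let U' : Submodule (ZMod p) V := U.comap (Inv (ZMod p) H).subtype
  let act : P → V →ₗ[ZMod p] V := fun g =>
    (tr (ZMod p) g).restrict (fun f hf => tr_mem_Inv hf g)
  have hact : ∀ g (v : V), ((act g v : V) : P → ZMod p) = tr (ZMod p) g v := fun g v => rfl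
  have hle : ∀ g, U' ≤ U'.comap (act g) := by
    intro g v hv
    show tr (ZMod p) g v ∈ U
    exact hst g _ hv
  let _ : MulAction P (V ⧸ U') :=
    { smul := fun g => U'.mapQ U' (act g) (hle g)
      one_smul := by
        intro b
        obtain ⟨v, rfl⟩ := Submodule.Quotient.mk_surjective _ b
        show U'.mapQ U' (act 1) (hle 1) (Submodule.Quotient.mk v) = Submodule.Quotient.mk v
        rw [Submodule.mapQ_apply]
        congr 1
        apply Subtype.ext
        rw [hact, tr_one]
      mul_smul := by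
        intro g h b
        obtain ⟨v, rfl⟩ := Submodule.Quotient.mk_surjective _ b
        show U'.mapQ U' (act (g * h)) (hle _) (Submodule.Quotient.mk v) =
          U'.mapQ U' (act g) (hle g) (U'.mapQ U' (act h) (hle h) (Submodule.Quotient.mk v))
        rw [Submodule.mapQ_apply, Submodule.mapQ_apply, Submodule.mapQ_apply]
        congr 1
        apply Subtype.ext
        rw [hact, tr_mul, hact, hact] }
  have hsmul : ∀ (g : P) (v : V), g • (Submodule.Quotient.mk v : V ⧸ U') =
      Submodule.Quotient.mk (act g v) := fun g v => rfl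
  have hnt : Nontrivial (V ⧸ U') := by
    rw [Submodule.Quotient.nontrivial_iff]
    intro h
    apply hne
    apply le_antisymm hU
    intro f hf
    have : (⟨f, hf⟩ : V) ∈ U' := by rw [h]; trivial
    exact this
  have hfin : Finite (V ⧸ U') := Finite.of_surjective _ (Submodule.Quotient.mk_surjective U')
  have hcard : p ∣ Nat.card (V ⧸ U') := by
    rw [Module.natCard_eq_pow_finrank (K := ZMod p), Nat.card_zmod]
    exact dvd_pow_self p (Module.finrank_pos).ne'
  have h0 : (0 : V ⧸ U') ∈ MulAction.fixedPoints P (V ⧸ U') := by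
    intro g
    exact map_zero (U'.mapQ U' (act g) (hle g))
  obtain ⟨b, hb, hb0⟩ := hP.exists_fixed_point_of_prime_dvd_card_of_fixed_point (V ⧸ U') hcard h0
  obtain ⟨v, rfl⟩ := Submodule.Quotient.mk_surjective _ b
  refine ⟨v, v.2, ?_, ?_⟩
  · intro hv
    apply hb0
    symm
    rw [Submodule.Quotient.mk_eq_zero]
    exact hv
  · intro g
    have := hb g
    rw [hsmul, Submodule.Quotient.eq] at this
    exact this

variable {H : Subgroup P}

theorem J_step (hu : Uni p H) {n : ℕ} {v : P → ZMod p} (hv : v ∈ J (ZMod p) H (n + 1))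
    (hv' : v ∉ J (ZMod p) H n) {u : P → ZMod p} (hu' : u ∈ J (ZMod p) H (n + 1)) :
    ∃ a : ZMod p, u - a • v ∈ J (ZMod p) H n := by
  have key : ∀ w ∈ J (ZMod p) H (n + 1), Stab (J (ZMod p) H n ⊔ Submodule.span (ZMod p) {w}) :=
    fun w hw => Stab_line (Stab_J H n) hw.2
  have hle : ∀ w ∈ J (ZMod p) H (n + 1),
      J (ZMod p) H n ⊔ Submodule.span (ZMod p) {w} ≤ Inv (ZMod p) H := by
    intro w hw
    refine sup_le (J_le_Inv H n) ?_
    rw [Submodule.span_singleton_le_iff_mem]
    exact hw.1
  rcases hu _ _ (hle u hu') (hle v hv) (key u hu') (key v hv) with h | h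
  · have h1 : u ∈ J (ZMod p) H n ⊔ Submodule.span (ZMod p) {v} :=
      h (Submodule.mem_sup_right (Submodule.mem_span_singleton_self u))
    obtain ⟨w, hw, z, hz, hwz⟩ := Submodule.mem_sup.1 h1
    obtain ⟨c, rfl⟩ := Submodule.mem_span_singleton.1 hz
    refine ⟨c, ?_⟩
    rw [← hwz, add_sub_cancel_right]
    exact hw
  · have h1 : v ∈ J (ZMod p) H n ⊔ Submodule.span (ZMod p) {u} :=
      h (Submodule.mem_sup_right (Submodule.mem_span_singleton_self v))
    obtain ⟨w, hw, z, hz, hwz⟩ := Submodule.mem_sup.1 h1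
    obtain ⟨c, rfl⟩ := Submodule.mem_span_singleton.1 hz
    have hc : c ≠ 0 := by
      rintro rfl
      rw [zero_smul, add_zero] at hwz
      exact hv' (hwz ▸ hw)
    refine ⟨c⁻¹, ?_⟩
    rw [← hwz, smul_add, smul_smul, inv_mul_cancel₀ hc, one_smul, sub_add_cancel_right]
    exact neg_mem (Submodule.smul_mem _ _ hw)

theorem J_lt (hP : IsPGroup p P) {n : ℕ} (hne : J (ZMod p) H n ≠ Inv (ZMod p) H) :
    ∃ v ∈ J (ZMod p) H (n + 1), v ∉ J (ZMod p) H n := by
  obtain ⟨v, hv, hv', h⟩ := exists_fixed hP (J_le_Inv H n) hne (Stab_J H n)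
  exact ⟨v, ⟨hv, h⟩, hv'⟩

theorem J_succ_eq (hu : Uni p H) {n : ℕ} {v : P → ZMod p} (hv : v ∈ J (ZMod p) H (n + 1))
    (hv' : v ∉ J (ZMod p) H n) :
    J (ZMod p) H (n + 1) = J (ZMod p) H n ⊔ Submodule.span (ZMod p) {v} := by
  apply le_antisymm
  · intro u hu'
    obtain ⟨a, ha⟩ := J_step hu hv hv' hu'
    have : u = (u - a • v) + a • v := by abel
    rw [this]
    exact Submodule.add_mem_sup ha (Submodule.smul_mem _ _ (Submodule.mem_span_singleton_self v))
  · refine sup_le (J_succ H n) ?_
    rw [Submodule.span_singleton_le_iff_mem]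
    exact hv

theorem finrank_J (hP : IsPGroup p P) (hu : Uni p H) {n : ℕ}
    (hn : n ≤ finrank (ZMod p) (Inv (ZMod p) H)) : finrank (ZMod p) (J (ZMod p) H n) = n := by
  induction n with
  | zero => exact finrank_bot _ _
  | succ n ih =>
    have ih' := ih (by omega)
    have hne : J (ZMod p) H n ≠ Inv (ZMod p) H := by
      intro h
      rw [h] at ih'
      omega
    obtain ⟨v, hv, hv'⟩ := J_lt hP hne
    rw [J_succ_eq hu hv hv', Submodule.finrank_sup_span_singleton hv', ih']

theorem eq_J (hP : IsPGroup p P) (hu : Uni p H) {U : Submodule (ZMod p) (P → ZMod p)}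
    (hU : U ≤ Inv (ZMod p) H) (hst : Stab U) : U = J (ZMod p) H (finrank (ZMod p) U) := by
  have hn : finrank (ZMod p) U ≤ finrank (ZMod p) (Inv (ZMod p) H) := Submodule.finrank_mono hU
  have h1 := finrank_J hP hu hn
  rcases hu _ _ hU (J_le_Inv H (finrank (ZMod p) U)) hst (Stab_J H _) with h | h
  · exact Submodule.eq_of_le_of_finrank_eq h h1.symm
  · exact (Submodule.eq_of_le_of_finrank_eq h h1).symm

/-- The pull-back identification of functions on `P / H`. -/
def pull (k : Type*) [Field k] (H : Subgroup P) : (P ⧸ H → k) →ₗ[k] (P → k) where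
  toFun f := fun z => f (QuotientGroup.mk z)
  map_add' _ _ := rfl
  map_smul' _ _ := rfl

theorem pull_mem {k : Type*} [Field k] (H : Subgroup P) (f : P ⧸ H → k) :
    pull k H f ∈ Inv k H := by
  intro z h hh
  show f (QuotientGroup.mk (z * h)) = f (QuotientGroup.mk z)
  congr 1
  rw [QuotientGroup.eq]
  simpa using hh

theorem pull_inj {k : Type*} [Field k] (H : Subgroup P) : Function.Injective (pull k H) := by
  intro f g h
  ext q
  obtain ⟨z, rfl⟩ := QuotientGroup.mk_surjective q
  exact congrFun h z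

theorem exists_pull {k : Type*} [Field k] (H : Subgroup P) {f : P → k} (hf : f ∈ Inv k H) :
    ∃ f' : P ⧸ H → k, pull k H f' = f := by
  refine ⟨Quotient.lift (s := QuotientGroup.leftRel H) f ?_, ?_⟩
  · intro a b hab
    have h1 : a⁻¹ * b ∈ H := QuotientGroup.leftRel_apply.1 hab
    have := hf a _ h1
    rw [mul_inv_cancel_left] at this
    exact this.symm
  · ext z
    rfl

theorem finrank_Inv (H : Subgroup P) : finrank (ZMod p) (Inv (ZMod p) H) = H.index := by
  classical
  have : LinearMap.range (pull (ZMod p) H) = Inv (ZMod p) H := by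
    apply le_antisymm
    · rintro _ ⟨f, rfl⟩
      exact pull_mem H f
    · intro f hf
      exact exists_pull H hf
  rw [← this, LinearMap.finrank_range_of_inj (pull_inj H)]
  have : Fintype (P ⧸ H) := Fintype.ofFinite _
  rw [finrank_fintype_fun_eq_card, Subgroup.index, Nat.card_eq_fintype_card]

theorem uni_of_uniserialPerm
    (h : Pool.Agent.Helper11.Coclass.UniserialPerm p P (P ⧸ H)) : Uni p H := by
  intro A B hA hB sA sB
  have key : ∀ A : Submodule (ZMod p) (P → ZMod p), Stab A → ∀ (g : P),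
      ∀ f ∈ A.comap (pull (ZMod p) H), (fun ω => f (g⁻¹ • ω)) ∈ A.comap (pull (ZMod p) H) := by
    intro A sA g f hf
    have := sA g _ hf
    exact this
  rcases h (A.comap (pull (ZMod p) H)) (B.comap (pull (ZMod p) H)) (key A sA) (key B sB) with
    h1 | h1
  · left
    intro f hf
    obtain ⟨f', rfl⟩ := exists_pull H (hA hf)
    exact h1 hf
  · right
    intro f hf
    obtain ⟨f', rfl⟩ := exists_pull H (hB hf)
    exact h1 hf

end Pool.Agent.Helper34.Coclass
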