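import Mathlib

/-!
# The augmentation filtration of a group algebra and dimension subgroups
-/

noncomputable section

namespace Pool.Agent.Helper34.Coclass

open MonoidAlgebra

open scoped commutatorElement

variable (K : Type*) [Field K] (G : Type*) [Group G]

/-- The augmentation ideal of the group algebra, as a subspace. -/
def aug : Submodule K (MonoidAlgebra K G) :=
  Submodule.span K (Set.range fun g : G => of K G g - 1)

/-- The powers of the augmentation ideal (`filt 0` is everything). -/
def filt : ℕ → Submodule K (MonoidAlgebra K G)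
  | 0 => ⊤
  | n + 1 => aug K G * filt n

variable {G}

theorem sub_one_mem_aug (g : G) : of K G g - 1 ∈ aug K G :=
  Submodule.subset_span ⟨g, rfl⟩

theorem of_mul_aug (g : G) {a : MonoidAlgebra K G} (ha : a ∈ aug K G) :
    of K G g * a ∈ aug K G := by
  induction ha using Submodule.span_induction with
  | mem x hx =>
    obtain ⟨h, rfl⟩ := hx
    have : of K G g * (of K G h - 1) = (of K G (g * h) - 1) - (of K G g - 1) := by
      rw [mul_sub, map_mul]; noncomm_ring
    simp only [this]
    exact sub_mem (sub_one_mem_aug K _) (sub_one_mem_aug K _)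
  | zero => simp
  | add x y _ _ hx hy => rw [mul_add]; exact add_mem hx hy
  | smul c x _ hx => rw [mul_smul_comm]; exact Submodule.smul_mem _ _ hx

theorem aug_mul_of (g : G) {a : MonoidAlgebra K G} (ha : a ∈ aug K G) :
    a * of K G g ∈ aug K G := by
  induction ha using Submodule.span_induction with
  | mem x hx =>
    obtain ⟨h, rfl⟩ := hx
    have : (of K G h - 1) * of K G g = (of K G (h * g) - 1) - (of K G g - 1) := by
      rw [sub_mul, map_mul]; noncomm_ring
    simp only [this]
    exact sub_mem (sub_one_mem_aug K _) (sub_one_mem_aug K _)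
  | zero => simp
  | add x y _ _ hx hy => rw [add_mul]; exact add_mem hx hy
  | smul c x _ hx => rw [smul_mul_assoc]; exact Submodule.smul_mem _ _ hx

/-- induction on elements of the group algebra -/
theorem algebra_span : (⊤ : Submodule K (MonoidAlgebra K G)) =
    Submodule.span K (Set.range fun g : G => of K G g) := by
  symm
  rw [eq_top_iff]
  intro a _
  induction a using MonoidAlgebra.induction_on with
  | of g => exact Submodule.subset_span ⟨g, rfl⟩
  | add f g hf hg => exact add_mem (hf trivial) (hg trivial)
  | smul r f hf => exact Submodule.smul_mem _ _ (hf trivial)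

theorem mul_mem_aug (b : MonoidAlgebra K G) {a : MonoidAlgebra K G} (ha : a ∈ aug K G) :
    b * a ∈ aug K G := by
  have hb : b ∈ (⊤ : Submodule K (MonoidAlgebra K G)) := trivial
  rw [algebra_span] at hb
  induction hb using Submodule.span_induction with
  | mem x hx => obtain ⟨h, rfl⟩ := hx; exact of_mul_aug K h ha
  | zero => simp
  | add x y _ _ hx hy => rw [add_mul]; exact add_mem hx hy
  | smul c x _ hx => rw [smul_mul_assoc]; exact Submodule.smul_mem _ _ hx

theorem aug_mul_mem (b : MonoidAlgebra K G) {a : MonoidAlgebra K G} (ha : a ∈ aug K G) :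
    a * b ∈ aug K G := by
  have hb : b ∈ (⊤ : Submodule K (MonoidAlgebra K G)) := trivial
  rw [algebra_span] at hb
  induction hb using Submodule.span_induction with
  | mem x hx => obtain ⟨h, rfl⟩ := hx; exact aug_mul_of K h ha
  | zero => simp
  | add x y _ _ hx hy => rw [mul_add]; exact add_mem hx hy
  | smul c x _ hx => rw [mul_smul_comm]; exact Submodule.smul_mem _ _ hx

theorem filt_one : filt K G 1 = aug K G := by
  apply le_antisymm
  · rw [filt, filt, Submodule.mul_le]
    intro m hm n _
    exact aug_mul_mem K n hm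
  · intro a ha
    have : a * 1 ∈ aug K G * ⊤ := Submodule.mul_mem_mul ha trivial
    simpa [filt] using this

theorem mul_mem_filt_right (n : ℕ) (b : MonoidAlgebra K G) {a : MonoidAlgebra K G}
    (ha : a ∈ filt K G n) : a * b ∈ filt K G n := by
  induction n generalizing a with
  | zero => trivial
  | succ n ih =>
    rw [filt] at ha ⊢
    induction ha using Submodule.mul_induction_on' with
    | mem_mul_mem x hx y hy => rw [mul_assoc]; exact Submodule.mul_mem_mul hx (ih hy)
    | add x _ y _ hx hy => rw [add_mul]; exact add_mem hx hy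

theorem mul_mem_filt_left (n : ℕ) (b : MonoidAlgebra K G) {a : MonoidAlgebra K G}
    (ha : a ∈ filt K G n) : b * a ∈ filt K G n := by
  induction n generalizing a with
  | zero => trivial
  | succ n ih =>
    rw [filt] at ha ⊢
    induction ha using Submodule.mul_induction_on' with
    | mem_mul_mem x hx y hy => rw [← mul_assoc]; exact Submodule.mul_mem_mul (mul_mem_aug K b hx) hy
    | add x _ y _ hx hy => rw [mul_add]; exact add_mem hx hy

theorem mul_mem_filt {m n : ℕ} {a b : MonoidAlgebra K G} (ha : a ∈ filt K G m)
    (hb : b ∈ filt K G n) : a * b ∈ filt K G (m + n) := by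
  induction m generalizing a with
  | zero => rw [Nat.zero_add]; exact mul_mem_filt_left K n a hb
  | succ m ih =>
    rw [filt] at ha
    rw [show m + 1 + n = (m + n) + 1 by ring, filt]
    induction ha using Submodule.mul_induction_on' with
    | mem_mul_mem x hx y hy => rw [mul_assoc]; exact Submodule.mul_mem_mul hx (ih hy)
    | add x _ y _ hx hy => rw [add_mul]; exact add_mem hx hy

theorem filt_succ_le (n : ℕ) : filt K G (n + 1) ≤ filt K G n := by
  rw [filt, Submodule.mul_le]
  intro m _ a ha
  exact mul_mem_filt_left K n m ha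

theorem filt_anti : Antitone (filt K G) := antitone_nat_of_succ_le (filt_succ_le K)

theorem pow_mem_filt {n : ℕ} {a : MonoidAlgebra K G} (ha : a ∈ filt K G n) (k : ℕ) :
    a ^ k ∈ filt K G (k * n) := by
  induction k with
  | zero => simp [filt]
  | succ k ih => rw [pow_succ, Nat.succ_mul]; exact mul_mem_filt K ih ha

/-- The dimension subgroups. -/
def dimSub (n : ℕ) : Subgroup G where
  carrier := {g | of K G g - 1 ∈ filt K G n}
  mul_mem' := by
    intro a b ha hb
    simp only [Set.mem_ofPred_eq] at ha hb ⊢
    have : of K G (a * b) - 1 = (of K G a - 1) * of K G b + (of K G b - 1) := by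
      rw [sub_mul, map_mul]; noncomm_ring
    rw [this]
    exact add_mem (mul_mem_filt_right K n _ ha) hb
  one_mem' := by
    simp only [Set.mem_ofPred_eq, map_one, sub_self]
    exact zero_mem _
  inv_mem' := by
    intro a ha
    simp only [Set.mem_ofPred_eq] at ha ⊢
    have : of K G a⁻¹ - 1 = - (of K G a⁻¹ * (of K G a - 1)) := by
      rw [mul_sub, ← map_mul, inv_mul_cancel, map_one, mul_one]; noncomm_ring
    rw [this]
    exact neg_mem (mul_mem_filt_left K n _ ha)

theorem mem_dimSub {n : ℕ} {g : G} : g ∈ dimSub K n ↔ of K G g - 1 ∈ filt K G n := Iff.rfl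

theorem dimSub_anti : Antitone (dimSub K (G := G)) := fun _ _ h _ hg => filt_anti K h hg

theorem dimSub_zero : dimSub K (G := G) 0 = ⊤ := by
  rw [eq_top_iff]; intro g _; exact trivial

theorem dimSub_one : dimSub K (G := G) 1 = ⊤ := by
  rw [eq_top_iff]; intro g _; rw [mem_dimSub, filt_one]; exact sub_one_mem_aug K g

/-- `⁅g,h⁆ - 1` modulo deeper terms. -/
theorem commutator_sub_one (g h : G) : of K G ⁅g, h⁆ - 1 =
    ((of K G g - 1) * (of K G h - 1) - (of K G h - 1) * (of K G g - 1)) *
      (of K G (g⁻¹ * h⁻¹)) := by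
  have h1 : (of K G g - 1) * (of K G h - 1) - (of K G h - 1) * (of K G g - 1) =
      of K G (g * h) - of K G (h * g) := by
    rw [map_mul, map_mul]; noncomm_ring
  rw [h1, sub_mul, ← map_mul, ← map_mul, commutatorElement_def]
  have h2 : h * g * (g⁻¹ * h⁻¹) = 1 := by group
  have h3 : g * h * (g⁻¹ * h⁻¹) = g * h * g⁻¹ * h⁻¹ := by group
  rw [h2, h3, map_one]

theorem commutator_mem_dimSub {m n : ℕ} {g h : G} (hg : g ∈ dimSub K m) (hh : h ∈ dimSub K n) :
    ⁅g, h⁆ ∈ dimSub K (m + n) := by
  rw [mem_dimSub, commutator_sub_one]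
  apply mul_mem_filt_right
  apply sub_mem
  · exact mul_mem_filt K hg hh
  · rw [add_comm]; exact mul_mem_filt K hh hg

theorem dimSub_commutator_le (m n : ℕ) :
    ⁅dimSub K (G := G) m, dimSub K (G := G) n⁆ ≤ dimSub K (m + n) := by
  rw [Subgroup.commutator_le]
  intro g hg h hh
  exact commutator_mem_dimSub K hg hh

instance dimSub_normal (n : ℕ) : (dimSub K (G := G) n).Normal := by
  constructor
  intro a ha g
  have h1 : ⁅a, g⁆ ∈ dimSub K (n + 0) :=
    commutator_mem_dimSub K ha (by rw [dimSub_zero]; trivial)
  have h2 : ⁅a, g⁆⁻¹ * a = g * a * g⁻¹ := by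
    rw [commutatorElement_def]; group
  rw [← h2]
  exact mul_mem (inv_mem h1) ha

/-- the difference `⁅g,h⁆ - 1 - [g-1,h-1]` is deeper. -/
theorem commutator_congr {m n : ℕ} {g h : G} (hg : g ∈ dimSub K m) (hh : h ∈ dimSub K n) :
    (of K G ⁅g, h⁆ - 1) - ((of K G g - 1) * (of K G h - 1) - (of K G h - 1) * (of K G g - 1)) ∈
      filt K G (m + n + 1) := by
  rw [commutator_sub_one]
  set D := (of K G g - 1) * (of K G h - 1) - (of K G h - 1) * (of K G g - 1) with hD
  have hDm : D ∈ filt K G (m + n) := by
    apply sub_mem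
    · exact mul_mem_filt K hg hh
    · rw [add_comm]; exact mul_mem_filt K hh hg
  have h1 : D * of K G (g⁻¹ * h⁻¹) - D = D * (of K G (g⁻¹ * h⁻¹) - 1) := by noncomm_ring
  rw [h1]
  apply mul_mem_filt K hDm
  rw [filt_one]; exact sub_one_mem_aug K _

section charp

variable (p : ℕ) [Fact p.Prime] [CharP K p]

instance charP_monoidAlgebra : CharP (MonoidAlgebra K G) p :=
  charP_of_injective_algebraMap (FaithfulSMul.algebraMap_injective K (MonoidAlgebra K G)) p

theorem of_pow_sub_one (g : G) : of K G (g ^ p) - 1 = (of K G g - 1) ^ p := by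
  rw [sub_pow_char_of_commute p (Commute.one_right _), one_pow, map_pow]

theorem pow_mem_dimSub {n : ℕ} {g : G} (hg : g ∈ dimSub K n) :
    g ^ p ∈ dimSub K (p * n) := by
  rw [mem_dimSub, of_pow_sub_one]
  exact pow_mem_filt K hg p

end charp

section functoriality

variable {H : Type*} [Group H] (f : G →* H)

theorem map_aug_le {a : MonoidAlgebra K G} (ha : a ∈ aug K G) :
    mapDomainAlgHom K K f a ∈ aug K H := by
  induction ha using Submodule.span_induction with
  | mem x hx =>
    obtain ⟨h, rfl⟩ := hx
    have : mapDomainAlgHom K K f (of K G h - 1) = of K H (f h) - 1 := by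
      simp [map_sub]
    simp only [this]
    exact sub_one_mem_aug K _
  | zero => simp
  | add x y _ _ hx hy => rw [map_add]; exact add_mem hx hy
  | smul c x _ hx => rw [map_smul]; exact Submodule.smul_mem _ _ hx

theorem map_filt {n : ℕ} {a : MonoidAlgebra K G} (ha : a ∈ filt K G n) :
    mapDomainAlgHom K K f a ∈ filt K H n := by
  induction n generalizing a with
  | zero => trivial
  | succ n ih =>
    rw [filt] at ha ⊢
    induction ha using Submodule.mul_induction_on' with
    | mem_mul_mem x hx y hy => rw [map_mul]; exact Submodule.mul_mem_mul (map_aug_le K f hx) (ih hy)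
    | add x _ y _ hx hy => rw [map_add]; exact add_mem hx hy

theorem map_dimSub {n : ℕ} {g : G} (hg : g ∈ dimSub K n) : f g ∈ dimSub K n := by
  rw [mem_dimSub]
  have : of K H (f g) - 1 = mapDomainAlgHom K K f (of K G g - 1) := by
    simp [map_sub]
  rw [this]
  exact map_filt K f hg

end functoriality

end Pool.Agent.Helper34.Coclass
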