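import Pool.Agent.Helper34.Coclass.Gen

/-!
# Functions on a group, invariant on the right under a subgroup, and the Loewy series
-/

set_option linter.unusedSectionVars false

noncomputable section

namespace Pool.Agent.Helper34.Coclass

open MonoidAlgebra

open scoped commutatorElement

section General

variable (k : Type*) [Field k] {P : Type*} [Group P]

/-- Left translation of functions on `P`. -/
def tr : Representation k P (P → k) where
  toFun g :=
    { toFun := fun f z => f (g⁻¹ * z)
      map_add' := fun _ _ => rfl
      map_smul' := fun _ _ => rfl }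
  map_one' := by ext; simp
  map_mul' := by intro g h; ext; simp [mul_assoc]

theorem tr_apply (g : P) (f : P → k) (z : P) : tr k g f z = f (g⁻¹ * z) := rfl

theorem tr_mul (g h : P) (f : P → k) : tr k (g * h) f = tr k g (tr k h f) := by
  rw [map_mul]; rfl

theorem tr_one (f : P → k) : tr k (1 : P) f = f := by
  rw [map_one]; rfl

/-- The functions on `P` that are invariant on the right under `H`. -/
def Inv (H : Subgroup P) : Submodule k (P → k) where
  carrier := {f | ∀ z : P, ∀ h ∈ H, f (z * h) = f z}
  add_mem' := by
    intro a b ha hb z h hh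
    rw [Pi.add_apply, Pi.add_apply, ha z h hh, hb z h hh]
  zero_mem' := by intro z h _; rfl
  smul_mem' := by
    intro c a ha z h hh
    rw [Pi.smul_apply, Pi.smul_apply, ha z h hh]

variable {k}

theorem mem_Inv {H : Subgroup P} {f : P → k} :
    f ∈ Inv k H ↔ ∀ z : P, ∀ h ∈ H, f (z * h) = f z := Iff.rfl

theorem tr_mem_Inv {H : Subgroup P} {f : P → k} (hf : f ∈ Inv k H) (g : P) :
    tr k g f ∈ Inv k H := by
  intro z h hh
  rw [tr_apply, tr_apply, ← mul_assoc]
  exact hf _ h hh

theorem Inv_anti {H L : Subgroup P} (h : H ≤ L) : Inv k L ≤ Inv k H :=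
  fun _ hf z x hx => hf z x (h hx)

variable (k)

/-- The Loewy series of the module of right `H`-invariant functions. -/
def J (H : Subgroup P) : ℕ → Submodule k (P → k)
  | 0 => ⊥
  | n + 1 =>
    { carrier := {f | f ∈ Inv k H ∧ ∀ g : P, tr k g f - f ∈ J H n}
      add_mem' := by
        intro a b ha hb
        refine ⟨add_mem ha.1 hb.1, fun g => ?_⟩
        have := add_mem (ha.2 g) (hb.2 g)
        rw [map_add]
        convert this using 1
        abel
      zero_mem' := ⟨zero_mem _, fun g => by rw [map_zero, sub_zero]; exact zero_mem _⟩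
      smul_mem' := by
        intro c a ha
        refine ⟨Submodule.smul_mem _ _ ha.1, fun g => ?_⟩
        rw [map_smul, ← smul_sub]
        exact Submodule.smul_mem _ _ (ha.2 g) }

variable {k}

theorem mem_J_succ {H : Subgroup P} {n : ℕ} {f : P → k} :
    f ∈ J k H (n + 1) ↔ f ∈ Inv k H ∧ ∀ g : P, tr k g f - f ∈ J k H n := Iff.rfl

theorem mem_J_zero {H : Subgroup P} {f : P → k} : f ∈ J k H 0 ↔ f = 0 := Iff.rfl

theorem J_le_Inv (H : Subgroup P) (n : ℕ) : J k H n ≤ Inv k H := by
  cases n with
  | zero => exact bot_le
  | succ n => exact fun f hf => hf.1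

theorem tr_mem_J {H : Subgroup P} {n : ℕ} {f : P → k} (hf : f ∈ J k H n) (g : P) :
    tr k g f ∈ J k H n := by
  induction n generalizing f g with
  | zero => rw [mem_J_zero] at hf ⊢; rw [hf, map_zero]
  | succ n ih =>
    refine ⟨tr_mem_Inv hf.1 g, fun h => ?_⟩
    have h1 : tr k h (tr k g f) - tr k g f = tr k g (tr k (g⁻¹ * h * g) f - f) := by
      rw [map_sub, ← tr_mul, ← tr_mul]
      congr 3
      group
    rw [h1]
    exact ih (hf.2 _) g

theorem J_succ (H : Subgroup P) (n : ℕ) : J k H n ≤ J k H (n + 1) := by
  induction n with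
  | zero => exact bot_le
  | succ n ih => exact fun f hf => ⟨hf.1, fun g => ih (hf.2 g)⟩

theorem J_mono (H : Subgroup P) : Monotone (J k H) := monotone_nat_of_le_succ (J_succ H)

theorem J_stable {H : Subgroup P} {n : ℕ} (h : J k H (n + 1) ≤ J k H n) :
    J k H (n + 2) ≤ J k H (n + 1) := fun _ hf => ⟨hf.1, fun g => h (hf.2 g)⟩

/-- The algebra acts through the Loewy series. -/
theorem filt_kill {H : Subgroup P} {n m : ℕ} {a : MonoidAlgebra k P} {f : P → k}
    (ha : a ∈ filt k P n) (hf : f ∈ J k H (n + m)) : (tr k).asAlgebraHom a f ∈ J k H m := by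
  induction n generalizing a f m with
  | zero =>
    rw [Nat.zero_add] at hf
    have hb : a ∈ (⊤ : Submodule k (MonoidAlgebra k P)) := trivial
    rw [algebra_span] at hb
    induction hb using Submodule.span_induction with
    | mem x hx =>
      obtain ⟨g, rfl⟩ := hx
      rw [Representation.asAlgebraHom_of]
      exact tr_mem_J hf g
    | zero => rw [map_zero]; exact zero_mem _
    | add x y _ _ hx hy => rw [map_add]; exact add_mem (hx trivial) (hy trivial)
    | smul c x _ hx => rw [map_smul]; exact Submodule.smul_mem _ _ (hx trivial)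
  | succ n ih =>
    rw [filt] at ha
    induction ha using Submodule.mul_induction_on' with
    | mem_mul_mem x hx y hy =>
      rw [map_mul]
      have h1 : (tr k).asAlgebraHom y f ∈ J k H (m + 1) := by
        apply ih hy
        rwa [show n + (m + 1) = n + 1 + m by ring]
      show (tr k).asAlgebraHom x ((tr k).asAlgebraHom y f) ∈ J k H m
      generalize (tr k).asAlgebraHom y f = f' at h1
      induction hx using Submodule.span_induction with
      | mem x hx =>
        obtain ⟨g, rfl⟩ := hx
        rw [map_sub, map_one, Representation.asAlgebraHom_of]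
        exact h1.2 g
      | zero => rw [map_zero]; exact zero_mem _
      | add x y _ _ hx hy => rw [map_add]; exact add_mem hx hy
      | smul c x _ hx => rw [map_smul]; exact Submodule.smul_mem _ _ hx
    | add x _ y _ hx hy => rw [map_add]; exact add_mem hx hy

end General

section Cast

variable {k K : Type*} [Field k] [Field K] [Algebra k K] {P : Type*} [Group P]

variable (K)

/-- Extension of scalars for functions. -/
def cst (f : P → k) : P → K := fun z => algebraMap k K (f z)

theorem cst_apply (f : P → k) (z : P) : cst K f z = algebraMap k K (f z) := rfl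

theorem cst_sub (f g : P → k) : cst K (f - g) = cst K f - cst K g := by
  ext z; simp [cst]

theorem cst_add (f g : P → k) : cst K (f + g) = cst K f + cst K g := by
  ext z; simp [cst]

theorem cst_smul (c : k) (f : P → k) : cst K (c • f) = algebraMap k K c • cst K f := by
  ext z; simp [cst]

theorem cst_zero : cst K (0 : P → k) = 0 := by
  ext z; simp [cst]

theorem tr_cst (g : P) (f : P → k) : tr K g (cst K f) = cst K (tr k g f) := rfl

theorem cst_eq_zero {f : P → k} : cst K f = 0 ↔ f = 0 := by
  constructor
  · intro h
    ext z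
    have := congrFun h z
    simpa [cst] using this
  · rintro rfl; exact cst_zero K

theorem cst_mem_Inv {H : Subgroup P} {f : P → k} : cst K f ∈ Inv K H ↔ f ∈ Inv k H := by
  rw [mem_Inv, mem_Inv]
  refine forall₃_congr fun z h _ => ?_
  rw [cst_apply, cst_apply]
  exact (algebraMap k K).injective.eq_iff

theorem cst_mem_J {H : Subgroup P} {n : ℕ} {f : P → k} : cst K f ∈ J K H n ↔ f ∈ J k H n := by
  induction n generalizing f with
  | zero => rw [mem_J_zero, mem_J_zero, cst_eq_zero]
  | succ n ih =>
    rw [mem_J_succ, mem_J_succ, cst_mem_Inv]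
    refine and_congr_right fun _ => forall_congr' fun g => ?_
    rw [tr_cst, ← cst_sub, ih]

/-- F1: dimension subgroups act deeply. -/
theorem dimSub_act {H : Subgroup P} {n m : ℕ} {g : P} {f : P → k}
    (hg : g ∈ dimSub K n) (hf : f ∈ J k H (n + m)) : tr k g f - f ∈ J k H m := by
  rw [← cst_mem_J K] at hf ⊢
  have := filt_kill (mem_dimSub K |>.1 hg) hf
  rw [map_sub, map_one, Representation.asAlgebraHom_of] at this
  rw [cst_sub]
  exact this

end Cast

section Generic

variable {k K : Type*} [Field k] [Field K] [Algebra k K] {P : Type*} [Group P] [Fintype P]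

/-- The generic element of the augmentation ideal. -/
def genX (c : P → K) : MonoidAlgebra K P := ∑ g, c g • (of K P g - 1)

theorem genX_mem (c : P → K) : genX c ∈ aug K P :=
  Submodule.sum_mem _ fun g _ => Submodule.smul_mem _ _ (sub_one_mem_aug K g)

theorem genX_act (c : P → K) (f : P → K) :
    (tr K).asAlgebraHom (genX c) f = ∑ g, c g • (tr K g f - f) := by
  rw [genX, map_sum, LinearMap.sum_apply]
  refine Finset.sum_congr rfl fun g _ => ?_
  rw [map_smul, map_sub, map_one, Representation.asAlgebraHom_of]
  rfl

theorem generic_sum_ne {c : P → K} (hc : LinearIndependent k c) {φ : P → k} (hφ : φ ≠ 0) :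
    ∑ g, c g * algebraMap k K (φ g) ≠ 0 := by
  intro h
  apply hφ
  rw [Fintype.linearIndependent_iff] at hc
  ext g
  apply hc φ
  rw [← h]
  refine Finset.sum_congr rfl fun g _ => ?_
  rw [Algebra.smul_def, mul_comm]

/-- F2: powers of the generic element act non-trivially on a uniserial module. -/
theorem genX_pow_act {c : P → K} (hc : LinearIndependent k c) {H : Subgroup P}
    (hstep : ∀ n : ℕ, ∀ v ∈ J k H (n + 1), v ∉ J k H n → ∀ u ∈ J k H (n + 1),
      ∃ a : k, u - a • v ∈ J k H n) {n : ℕ} {e : P → k}
    (he : e ∈ J k H (n + 1)) (he' : e ∉ J k H n) :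
    (tr K).asAlgebraHom (genX c ^ n) (cst K e) ≠ 0 := by
  induction n generalizing e with
  | zero =>
    rw [pow_zero, map_one]
    intro h
    exact he' ((cst_eq_zero K).1 h)
  | succ n ih =>
    -- an element one step below
    obtain ⟨v, hv, hv'⟩ : ∃ v ∈ J k H (n + 1), v ∉ J k H n := by
      by_contra hcon
      push Not at hcon
      exact he' (J_stable hcon he)
    have h1 : ∀ g : P, ∃ a : k, (tr k g e - e) - a • v ∈ J k H n :=
      fun g => hstep n v hv hv' _ (he.2 g)
    choose φ hφ using h1
    have hφ0 : φ ≠ 0 := by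
      rintro rfl
      apply he'
      refine ⟨he.1, fun g => ?_⟩
      have := hφ g
      rwa [Pi.zero_apply, zero_smul, sub_zero] at this
    have h2 := ih hv hv'
    rw [pow_succ, map_mul]
    show (tr K).asAlgebraHom (genX c ^ n) ((tr K).asAlgebraHom (genX c) (cst K e)) ≠ 0
    have h3 : (tr K).asAlgebraHom (genX c) (cst K e) =
        (∑ g, c g * algebraMap k K (φ g)) • cst K v +
          ∑ g, c g • cst K ((tr k g e - e) - φ g • v) := by
      rw [genX_act, Finset.sum_smul, ← Finset.sum_add_distrib]
      refine Finset.sum_congr rfl fun g _ => ?_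
      rw [tr_cst, ← cst_sub, mul_smul, ← smul_add]
      congr 1
      rw [← cst_smul, ← cst_add]
      congr 1
      abel
    have h4 : ∑ g, c g • cst K ((tr k g e - e) - φ g • v) ∈ J K H n :=
      Submodule.sum_mem _ fun g _ => Submodule.smul_mem _ _ ((cst_mem_J K).2 (hφ g))
    have h5 : genX c ^ n ∈ filt K P n := by
      have := pow_mem_filt K (n := 1) (a := genX c) (by rw [filt_one]; exact genX_mem c) n
      rwa [mul_one] at this
    have h6 := filt_kill (m := 0) h5 h4
    rw [mem_J_zero] at h6
    rw [h3, map_add, h6, add_zero, map_smul]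
    exact smul_ne_zero (generic_sum_ne hc hφ0) h2

end Generic

end Pool.Agent.Helper34.Coclass
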