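import Pool.Agent.Helper34.Coclass.Filt
import Pool.Agent.Helper11.Coclass.Jacobson

/-!
# The `p`-th powers of a generic element
-/

noncomputable section

namespace Pool.Agent.Helper34.Coclass

open MonoidAlgebra

open scoped commutatorElement

variable (K : Type*) [Field K] {G : Type*} [Group G]

/-- The elements `g - 1` with `g` in the `n`-th dimension subgroup. -/
def dimSet (n : ℕ) : Set (MonoidAlgebra K G) := {a | ∃ g ∈ dimSub K (G := G) n, of K G g - 1 = a}

/-- The span of `D_n - 1` together with `I ^ (n + 1)`. -/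
def LL (n : ℕ) : Submodule K (MonoidAlgebra K G) :=
  Submodule.span K (dimSet K n) ⊔ filt K G (n + 1)

theorem span_dimSet_le (n : ℕ) : Submodule.span K (dimSet K (G := G) n) ≤ filt K G n := by
  rw [Submodule.span_le]
  rintro _ ⟨g, hg, rfl⟩
  exact hg

theorem LL_le_filt (n : ℕ) : LL K (G := G) n ≤ filt K G n :=
  sup_le (span_dimSet_le K n) (filt_succ_le K n)

theorem filt_comm {m n : ℕ} {x y : MonoidAlgebra K G} (hx : x ∈ filt K G m)
    (hy : y ∈ filt K G n) : x * y - y * x ∈ filt K G (m + n) := by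
  apply sub_mem (mul_mem_filt K hx hy)
  rw [add_comm]
  exact mul_mem_filt K hy hx

theorem LL_comm_span {m n : ℕ} {x y : MonoidAlgebra K G}
    (hx : x ∈ Submodule.span K (dimSet K (G := G) m))
    (hy : y ∈ Submodule.span K (dimSet K (G := G) n)) : x * y - y * x ∈ LL K (G := G) (m + n) := by
  induction hx using Submodule.span_induction with
  | mem x hx =>
    obtain ⟨g, hg, rfl⟩ := hx
    induction hy using Submodule.span_induction with
    | mem y hy =>
      obtain ⟨h, hh, rfl⟩ := hy
      have h1 := commutator_congr K hg hh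
      have h2 : of K G ⁅g, h⁆ - 1 ∈ LL K (G := G) (m + n) :=
        Submodule.mem_sup_left (Submodule.subset_span ⟨_, commutator_mem_dimSub K hg hh, rfl⟩)
      have h3 := sub_mem h2 (Submodule.mem_sup_right h1)
      rwa [sub_sub_cancel] at h3
    | zero => simp
    | add a b _ _ ha hb =>
      have := add_mem ha hb
      convert this using 1
      noncomm_ring
    | smul c a _ ha =>
      have := Submodule.smul_mem _ c ha
      rw [smul_sub] at this
      rwa [mul_smul_comm, smul_mul_assoc]
  | zero => simp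
  | add a b _ _ ha hb =>
    have := add_mem ha hb
    convert this using 1
    noncomm_ring
  | smul c a _ ha =>
    have := Submodule.smul_mem _ c ha
    rw [smul_sub] at this
    rwa [mul_smul_comm, smul_mul_assoc]

theorem LL_comm {m n : ℕ} {x y : MonoidAlgebra K G} (hx : x ∈ LL K (G := G) m)
    (hy : y ∈ LL K (G := G) n) : x * y - y * x ∈ LL K (G := G) (m + n) := by
  obtain ⟨x₁, hx₁, x₂, hx₂, rfl⟩ := Submodule.mem_sup.1 hx
  have hy' := LL_le_filt K n hy
  obtain ⟨y₁, hy₁, y₂, hy₂, rfl⟩ := Submodule.mem_sup.1 hy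
  have e : (x₁ + x₂) * (y₁ + y₂) - (y₁ + y₂) * (x₁ + x₂) =
      (x₁ * y₁ - y₁ * x₁) + ((x₁ * y₂ - y₂ * x₁) + (x₂ * (y₁ + y₂) - (y₁ + y₂) * x₂)) := by
    noncomm_ring
  rw [e]
  refine add_mem (LL_comm_span K hx₁ hy₁) (Submodule.mem_sup_right (add_mem ?_ ?_))
  · have := filt_comm K (span_dimSet_le K m hx₁) hy₂
    rwa [← add_assoc] at this
  · have := filt_comm K hx₂ hy'
    rwa [show m + n + 1 = m + 1 + n by ring]

section charp

variable (p : ℕ) [hp : Fact p.Prime] [CharP K p]

theorem LL_add_pow {n : ℕ} {A B : MonoidAlgebra K G} (hA : A ∈ LL K (G := G) n)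
    (hB : B ∈ LL K (G := G) n) :
    (A + B) ^ p - A ^ p - B ^ p ∈ LL K (G := G) (p * n) := by
  have := Pool.Agent.Helper11.Coclass.add_pow_sub_mem (p := p)
    (fun v => (LL K (G := G) v).toAddSubgroup) (fun v w x hx y hy => LL_comm K hx hy)
    (fun v m x h0 hm hx => by
      have h1 : ((m : K)) ≠ 0 := by
        rw [Ne, CharP.cast_eq_zero_iff K p]
        intro h
        exact absurd (Nat.le_of_dvd h0 h) (by omega)
      have h2 : (m : K)⁻¹ • ((m : MonoidAlgebra K G) * x) = x := by
        rw [← nsmul_eq_mul, ← Nat.cast_smul_eq_nsmul K, smul_smul, inv_mul_cancel₀ h1, one_smul]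
      rw [← h2]
      exact Submodule.smul_mem _ _ hx) (w := n) (A := A) (B := B) hA hB
  exact this

theorem LL_pow_span {n : ℕ} {A : MonoidAlgebra K G}
    (hA : A ∈ Submodule.span K (dimSet K (G := G) n)) : A ^ p ∈ LL K (G := G) (p * n) := by
  induction hA using Submodule.span_induction with
  | mem x hx =>
    obtain ⟨g, hg, rfl⟩ := hx
    rw [← of_pow_sub_one]
    exact Submodule.mem_sup_left (Submodule.subset_span ⟨_, pow_mem_dimSub K p hg, rfl⟩)
  | zero => rw [zero_pow hp.out.ne_zero]; exact zero_mem _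
  | add a b ha' hb' ha hb =>
    have h1 := LL_add_pow K p (n := n) (A := a) (B := b) (Submodule.mem_sup_left ha')
      (Submodule.mem_sup_left hb')
    have h2 := add_mem (add_mem h1 ha) hb
    convert h2 using 1
    abel
  | smul c a _ ha =>
    rw [smul_pow]
    exact Submodule.smul_mem _ _ ha

theorem LL_pow {n : ℕ} {Z : MonoidAlgebra K G} (hZ : Z ∈ LL K (G := G) n) :
    Z ^ p ∈ LL K (G := G) (p * n) := by
  obtain ⟨A, hA, B, hB, rfl⟩ := Submodule.mem_sup.1 hZ
  have h1 := LL_add_pow K p (n := n) (A := A) (B := B) (Submodule.mem_sup_left hA)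
    (Submodule.mem_sup_right hB)
  have h2 := LL_pow_span K p hA
  have h3 : B ^ p ∈ LL K (G := G) (p * n) := by
    apply Submodule.mem_sup_right
    apply filt_anti K _ (pow_mem_filt K hB p)
    have := hp.out.one_le
    nlinarith
  have h4 := add_mem (add_mem h1 h2) h3
  convert h4 using 1
  abel

theorem aug_pow_mem_LL {X : MonoidAlgebra K G} (hX : X ∈ aug K G) (i : ℕ) :
    X ^ p ^ i ∈ LL K (G := G) (p ^ i) := by
  induction i with
  | zero =>
    rw [pow_zero, pow_one]
    apply Submodule.mem_sup_left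
    refine Submodule.span_mono ?_ hX
    rintro _ ⟨g, rfl⟩
    exact ⟨g, by rw [dimSub_one]; trivial, rfl⟩
  | succ i ih =>
    rw [pow_succ p, pow_mul X, mul_comm]
    exact LL_pow K p ih

end charp

end Pool.Agent.Helper34.Coclass
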