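import Mathlib

/-!
# Group theoretic lemmas
-/

set_option linter.unusedSectionVars false

noncomputable section

namespace Pool.Agent.Helper34.Coclass

open scoped commutatorElement

/-- A function to `ZMod p` that is additive on a subgroup. -/
structure AddOn {P : Type*} [Group P] {p : ℕ} (A : Subgroup P) (φ : P → ZMod p) : Prop where
  mul : ∀ g ∈ A, ∀ h ∈ A, φ (g * h) = φ g + φ h

namespace AddOn

variable {P : Type*} [Group P] {p : ℕ} {A : Subgroup P} {φ ψ : P → ZMod p}

theorem one (h : AddOn A φ) : φ 1 = 0 := by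
  have := h.mul 1 (one_mem A) 1 (one_mem A)
  rw [mul_one] at this
  exact left_eq_add.1 this

theorem inv (h : AddOn A φ) {g : P} (hg : g ∈ A) : φ g⁻¹ = - φ g := by
  have := h.mul g hg g⁻¹ (inv_mem hg)
  rw [mul_inv_cancel, h.one] at this
  exact eq_neg_of_add_eq_zero_right this.symm

theorem pow (h : AddOn A φ) {g : P} (hg : g ∈ A) (n : ℕ) : φ (g ^ n) = n * φ g := by
  induction n with
  | zero => rw [pow_zero, h.one, Nat.cast_zero, zero_mul]
  | succ n ih => rw [pow_succ, h.mul _ (pow_mem hg n) _ hg, ih, Nat.cast_succ]; ring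

/-- The kernel of a function that is additive on a subgroup. -/
def ker (h : AddOn A φ) : Subgroup P where
  carrier := {g | g ∈ A ∧ φ g = 0}
  mul_mem' := by
    rintro a b ⟨ha, ha'⟩ ⟨hb, hb'⟩
    exact ⟨mul_mem ha hb, by rw [h.mul a ha b hb, ha', hb', add_zero]⟩
  one_mem' := ⟨one_mem _, h.one⟩
  inv_mem' := by
    rintro a ⟨ha, ha'⟩
    exact ⟨inv_mem ha, by rw [h.inv ha, ha', neg_zero]⟩

theorem mem_ker (h : AddOn A φ) {g : P} : g ∈ h.ker ↔ g ∈ A ∧ φ g = 0 := Iff.rfl

variable [hp : Fact p.Prime]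

theorem exists_pow (h : AddOn A φ) {y : P} (hy : y ∈ A) (hy0 : φ y ≠ 0) {g : P} (hg : g ∈ A) :
    ∃ n : ℕ, (n : ZMod p) = φ g / φ y ∧ φ (g * (y ^ n)⁻¹) = 0 := by
  refine ⟨(φ g / φ y).val, ?_, ?_⟩
  · rw [ZMod.natCast_val, ZMod.cast_id', id]
  · rw [h.mul _ hg _ (inv_mem (pow_mem hy _)), h.inv (pow_mem hy _), h.pow hy, ZMod.natCast_val,
      ZMod.cast_id', id, div_mul_cancel₀ _ hy0, add_neg_cancel]

theorem ratio (h : AddOn A φ) (h' : AddOn A ψ) (h0 : ∀ g ∈ A, φ g = 0 → ψ g = 0) {y : P}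
    (hy : y ∈ A) (hy0 : φ y ≠ 0) {g : P} (hg : g ∈ A) : ψ g = φ g * (ψ y / φ y) := by
  obtain ⟨n, hn, hn'⟩ := h.exists_pow hy hy0 hg
  have h1 := h0 _ (mul_mem hg (inv_mem (pow_mem hy n))) hn'
  rw [h'.mul _ hg _ (inv_mem (pow_mem hy n)), h'.inv (pow_mem hy n), h'.pow hy, hn] at h1
  rw [add_neg_eq_zero.1 h1]
  ring

end AddOn

/-- The power formula for two elements whose commutator is central. -/
theorem class_two_pow {Q : Type*} [Group Q] (g h : Q) (hg : Commute ⁅h, g⁆ g)
    (hh : Commute ⁅h, g⁆ h) (n : ℕ) : (g * h) ^ n = g ^ n * h ^ n * ⁅h, g⁆ ^ (n.choose 2) := by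
  set c := ⁅h, g⁆ with hc
  have h0 : h * g = c * g * h := by
    rw [hc, commutatorElement_def]; group
  have h1 : ∀ n : ℕ, h ^ n * g = c ^ n * g * h ^ n := by
    intro n
    induction n with
    | zero => simp
    | succ n ih =>
      rw [pow_succ', mul_assoc, ih, pow_succ' c]
      calc h * (c ^ n * g * h ^ n) = (h * c ^ n) * g * h ^ n := by simp only [mul_assoc]
        _ = (c ^ n * h) * g * h ^ n := by rw [(hh.pow_left n).eq]
        _ = c ^ n * (h * g) * h ^ n := by simp only [mul_assoc]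
        _ = c ^ n * (c * g * h) * h ^ n := by rw [h0]
        _ = (c ^ n * c) * g * (h * h ^ n) := by simp only [mul_assoc]
        _ = (c * c ^ n) * g * (h * h ^ n) := by rw [← pow_succ, ← pow_succ' c]
  induction n with
  | zero => simp
  | succ n ih =>
    have e : (n + 1).choose 2 = n + n.choose 2 := by
      rw [Nat.choose_succ_succ', Nat.choose_one_right]
    rw [pow_succ, ih, e, pow_add c]
    calc g ^ n * h ^ n * c ^ n.choose 2 * (g * h)
        = g ^ n * h ^ n * (c ^ n.choose 2 * g) * h := by simp only [mul_assoc]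
      _ = g ^ n * h ^ n * (g * c ^ n.choose 2) * h := by rw [(hg.pow_left _).eq]
      _ = g ^ n * (h ^ n * g) * (c ^ n.choose 2 * h) := by simp only [mul_assoc]
      _ = g ^ n * (c ^ n * g * h ^ n) * (h * c ^ n.choose 2) := by rw [h1, (hh.pow_left _).eq]
      _ = g ^ n * (c ^ n * (g * h ^ (n + 1))) * c ^ n.choose 2 := by
          rw [pow_succ h]; simp only [mul_assoc]
      _ = g ^ n * ((g * h ^ (n + 1)) * c ^ n) * c ^ n.choose 2 := by
          rw [((hg.pow_left n).mul_right ((hh.pow_left n).pow_right (n + 1))).eq]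
      _ = g ^ (n + 1) * h ^ (n + 1) * (c ^ n * c ^ n.choose 2) := by
          rw [pow_succ g]; simp only [mul_assoc]

theorem commute_mk {P : Type*} [Group P] {N : Subgroup P} [N.Normal] {a z : P}
    (h : ⁅z, a⁆ ∈ N) : Commute (QuotientGroup.mk' N a) (QuotientGroup.mk' N z) := by
  symm
  show QuotientGroup.mk' N z * QuotientGroup.mk' N a = QuotientGroup.mk' N a * QuotientGroup.mk' N z
  rw [← map_mul, ← map_mul]
  apply QuotientGroup.eq_iff_div_mem.2
  convert h using 1
  rw [commutatorElement_def, div_eq_mul_inv]; group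

/-- A subgroup that generates a finite `p`-group modulo commutators is everything. -/
theorem eq_top_of_sup_commutator {p : ℕ} [hp : Fact p.Prime] {P : Type*} [Group P] [Finite P]
    (hP : IsPGroup p P) {A : Subgroup P} (hA : A ⊔ ⁅(⊤ : Subgroup P), ⊤⁆ = ⊤) : A = ⊤ := by
  by_contra hne
  obtain ⟨M, hM, hAM⟩ := (eq_top_or_exists_le_coatom A).resolve_left hne
  have hnil : Group.IsNilpotent P := hP.isNilpotent
  have hn : M.Normal := by
    have := Group.normalizerCondition_of_isNilpotent (G := P)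
    exact Subgroup.NormalizerCondition.normal_of_coatom M this hM
  have hnt : Nontrivial (P ⧸ M) := by
    rw [QuotientGroup.nontrivial_iff]
    exact hM.1
  have hc := (hP.to_quotient M).center_nontrivial
  have h1 : M < (Subgroup.center (P ⧸ M)).comap (QuotientGroup.mk' M) := by
    refine lt_of_le_of_ne ?_ ?_
    · intro g hg
      rw [Subgroup.mem_comap]
      have : QuotientGroup.mk' M g = 1 := (QuotientGroup.eq_one_iff g).2 hg
      rw [this]
      exact one_mem _
    · intro h
      obtain ⟨⟨z, hz⟩, hz1⟩ := exists_ne (1 : Subgroup.center (P ⧸ M))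
      obtain ⟨g, rfl⟩ := QuotientGroup.mk'_surjective M z
      have : g ∈ M := by rw [h]; exact hz
      apply hz1
      apply Subtype.ext
      exact (QuotientGroup.eq_one_iff g).2 this
  have h2 := hM.2 _ h1
  have h3 : ⁅(⊤ : Subgroup P), ⊤⁆ ≤ M := by
    rw [Subgroup.commutator_le]
    intro g _ h _
    have hg : g ∈ (Subgroup.center (P ⧸ M)).comap (QuotientGroup.mk' M) := by rw [h2]; trivial
    rw [Subgroup.mem_comap, Subgroup.mem_center_iff] at hg
    have h4 := hg (QuotientGroup.mk' M h)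
    rw [← map_mul, ← map_mul] at h4
    have h5 := QuotientGroup.eq_iff_div_mem.1 h4.symm
    convert h5 using 1
    rw [commutatorElement_def, div_eq_mul_inv]; group
  have h6 : (⊤ : Subgroup P) ≤ M := by
    rw [← hA]
    exact sup_le hAM h3
  exact hM.1 (top_le_iff.1 h6)

end Pool.Agent.Helper34.Coclass
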