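import Pool.Agent.Helper34.Coclass.Tower2
import Pool.Agent.Helper34.Coclass.Gp

/-!
# Dimension subgroups in the tower, and the power map
-/

set_option linter.unusedSectionVars false
set_option linter.unusedVariables false

noncomputable section

namespace Pool.Agent.Helper34.Coclass

open Module MonoidAlgebra

open scoped commutatorElement

/-- A finite field of characteristic `p` with enough independent elements. -/
theorem exists_generic (p : ℕ) [hp : Fact p.Prime] (P : Type*) [Finite P] [Nonempty P] :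
    ∃ (K : Type) (_ : Field K) (_ : Algebra (ZMod p) K) (_ : CharP K p) (c : P → K),
      LinearIndependent (ZMod p) c := by
  have hn : Nat.card P ≠ 0 := Nat.card_pos.ne'
  refine ⟨GaloisField p (Nat.card P), inferInstance, inferInstance, inferInstance, ?_⟩
  have h1 : finrank (ZMod p) (GaloisField p (Nat.card P)) = Nat.card P := GaloisField.finrank p hn
  let b := finBasisOfFinrankEq (ZMod p) (GaloisField p (Nat.card P)) h1
  let e : P ≃ Fin (Nat.card P) := Finite.equivFin P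
  exact ⟨b ∘ e, b.linearIndependent.comp e e.injective⟩

variable {p : ℕ} [hp : Fact p.Prime] {P : Type*} [Group P] {H : Subgroup P} {x i : ℕ}
  {e : P → ZMod p}

section dim

variable (K : Type*) [Field K] [Algebra (ZMod p) K]

theorem dimSub_le_Gs (H : Subgroup P) (i : ℕ) : dimSub K (G := P) (p ^ i) ≤ Gs p H i := by
  intro g hg f hf
  have := dimSub_act K (m := 0) hg hf
  rw [mem_J_zero] at this
  exact sub_eq_zero.1 this

variable [Finite P]

theorem dimSub_succ_le_Gs (c : Ctx p H x) (hi : i < x) :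
    dimSub K (G := P) (p ^ i + 1) ≤ Gs p H (i + 1) := by
  intro g hg
  apply star c.pgrp c.uni c.idx hi
  intro f hf
  have := dimSub_act K (m := 0) hg hf
  rw [mem_J_zero] at this
  exact sub_eq_zero.1 this

theorem dimSub_le_Ys (c : Ctx p H x) (hi : i < x) :
    dimSub K (G := P) (p ^ i) ≤ Ys p H i := by
  intro g hg
  rw [mem_Ys]
  refine ⟨dimSub_le_Gs K H i hg, fun z => dimSub_succ_le_Gs K c hi ?_⟩
  have hz : z ∈ dimSub K (G := P) 1 := by rw [dimSub_one]; trivial
  have := commutator_mem_dimSub K hz hg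
  rwa [add_comm] at this

end dim

section generic

variable {K : Type*} [Field K] [Algebra (ZMod p) K] [CharP K p] [Fintype P] {c : P → K}

theorem exists_A (cx : Ctx p H x) (hc : LinearIndependent (ZMod p) c)
    (he : e ∈ J (ZMod p) H (p ^ i + 1)) (he' : e ∉ J (ZMod p) H (p ^ i)) :
    ∃ A ∈ Submodule.span K (dimSet K (G := P) (p ^ i)),
      genX c ^ (p ^ i) - A ∈ filt K P (p ^ i + 1) ∧
        (tr K).asAlgebraHom A (cst K e) ≠ 0 := by
  obtain ⟨A, hA, R, hR, hAR⟩ := Submodule.mem_sup.1 (aug_pow_mem_LL K p (genX_mem c) i)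
  refine ⟨A, hA, ?_, ?_⟩
  · rw [← hAR, add_sub_cancel_left]
    exact hR
  · have h1 := genX_pow_act hc (fun n v hv hv' u hu => J_step cx.uni hv hv' hu) he he'
    have h2 := filt_kill (m := 0) hR ((cst_mem_J K).2 he)
    rw [mem_J_zero] at h2
    rw [← hAR, map_add, LinearMap.add_apply, h2, add_zero] at h1
    exact h1

theorem exists_y (cx : Ctx p H x) (hc : LinearIndependent (ZMod p) c)
    (he : e ∈ J (ZMod p) H (p ^ i + 1)) (he' : e ∉ J (ZMod p) H (p ^ i)) :
    ∃ y ∈ dimSub K (G := P) (p ^ i), av e y ≠ 0 := by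
  obtain ⟨A, hA, hd, hA0⟩ := exists_A cx hc he he'
  by_contra hcon
  push Not at hcon
  apply hA0
  clear hA0 hd
  induction hA using Submodule.span_induction with
  | mem x hx =>
    obtain ⟨g, hg, rfl⟩ := hx
    rw [map_sub, map_one, Representation.asAlgebraHom_of]
    have h1 := hcon g hg
    have h2 : cst K (av e g) = 0 := by rw [h1, cst_zero]
    rw [av, cst_sub] at h2
    exact h2
  | zero => rw [map_zero]; rfl
  | add x y _ _ hx hy => rw [map_add, LinearMap.add_apply, hx, hy, add_zero]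
  | smul a x _ hx => rw [map_smul, LinearMap.smul_apply, hx, smul_zero]

end generic

section finite

variable [Finite P]

theorem Ys_not_le (c : Ctx p H x) (hi : i < x) : ¬ Ys p H i ≤ Gs p H (i + 1) := by
  obtain ⟨e, he, he'⟩ := exists_e' c hi
  obtain ⟨K, _, _, _, cc, hcc⟩ := exists_generic p P
  have : Fintype P := Fintype.ofFinite P
  obtain ⟨y, hy, hy'⟩ := exists_y (K := K) c hcc he he'
  intro h
  apply hy'
  have h1 := dimSub_le_Ys K c hi hy
  exact (mem_Gs_succ c hi he he' (Ys_le H i h1)).1 (h h1)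

theorem Gs_not_le (c : Ctx p H x) (hi : i < x) : ¬ Gs p H i ≤ Gs p H (i + 1) :=
  fun h => Ys_not_le c hi ((Ys_le H i).trans h)

theorem relIndex_Ys' (c : Ctx p H x) (hi : i < x) :
    (Gs p H (i + 1)).relIndex (Ys p H i) = p := relIndex_Ys c hi (Ys_not_le c hi)

theorem exists_mu' (c : Ctx p H x) (hi : i < x) :
    ∃ μ : P → ZMod p, AddOn (Gs p H i) μ ∧
      (∀ g ∈ Gs p H i, (μ g = 0 ↔ g ∈ Ms p H i)) ∧ ∃ g ∈ Gs p H i, μ g ≠ 0 := by
  obtain ⟨μ, h1, h2, h3⟩ := exists_mu c hi (Gs_not_le c hi)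
  exact ⟨μ, ⟨h1⟩, h2, h3⟩

theorem relIndex_Ms (c : Ctx p H x) (hi : i < x) :
    (Ms p H i).relIndex (Gs p H i) = p := by
  obtain ⟨μ, h1, h2, g, hg, hg'⟩ := exists_mu' c hi
  refine relIndex_of_fun μ h1.mul h2 ?_
  intro h
  exact hg' ((h2 g hg).2 (h hg))

variable {μ : P → ZMod p}

theorem mu_congr (hμ : AddOn (Gs p H i) μ) (hk : ∀ g ∈ Gs p H i, (μ g = 0 ↔ g ∈ Ms p H i))
    {a b : P} (ha : a ∈ Gs p H i) (hb : b ∈ Gs p H i)
    (h : QuotientGroup.mk' (Ms p H i) a = QuotientGroup.mk' (Ms p H i) b) : μ a = μ b := by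
  have h1 := QuotientGroup.eq_iff_div_mem.1 h
  rw [div_eq_mul_inv] at h1
  have h2 := (hk _ (mul_mem ha (inv_mem hb))).2 h1
  rw [hμ.mul a ha _ (inv_mem hb), hμ.inv hb, add_neg_eq_zero] at h2
  exact h2

theorem mu_conj (hμ : AddOn (Gs p H i) μ) (hk : ∀ g ∈ Gs p H i, (μ g = 0 ↔ g ∈ Ms p H i))
    {a : P} (ha : a ∈ Gs p H i) (z : P) : μ (z * a * z⁻¹) = μ a := by
  have h1 : z * a * z⁻¹ = ⁅z, a⁆ * a := by rw [commutatorElement_def]; group
  rw [h1, hμ.mul _ (comm_mem_Gs ha z) _ ha, (hk _ (comm_mem_Gs ha z)).2 (comm_mem_Ms ha z),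
    zero_add]

/-- F5: the `p`-th power map is additive. -/
theorem pow_addOn (hp2 : p ≠ 2) (c : Ctx p H x) (hi : i + 1 < x) (hμ : AddOn (Gs p H (i + 1)) μ)
    (hk : ∀ g ∈ Gs p H (i + 1), (μ g = 0 ↔ g ∈ Ms p H (i + 1))) :
    AddOn (Gs p H i) (fun g => μ (g ^ p)) := by
  constructor
  intro g hg h hh
  have hi' : i < x := by omega
  show μ ((g * h) ^ p) = μ (g ^ p) + μ (h ^ p)
  have hg' := pow_mem_Gs c hi' hg
  have hh' := pow_mem_Gs c hi' hh
  have hgh' := pow_mem_Gs c hi' (mul_mem hg hh)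
  rw [← hμ.mul _ hg' _ hh']
  apply mu_congr hμ hk hgh' (mul_mem hg' hh')
  have hcm := comm_mem_Gs_succ c hi' hh hg
  have hcomm : ∀ z : P, Commute ⁅QuotientGroup.mk' (Ms p H (i + 1)) h,
      QuotientGroup.mk' (Ms p H (i + 1)) g⁆ (QuotientGroup.mk' (Ms p H (i + 1)) z) := by
    intro z
    rw [← map_commutatorElement]
    exact commute_mk (comm_mem_Ms hcm z)
  rw [map_pow, map_mul, class_two_pow _ _ (hcomm g) (hcomm h), map_mul, map_pow, map_pow]
  have hdvd : p ∣ p.choose 2 := hp.out.dvd_choose_self (by omega)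
    (lt_of_le_of_ne hp.out.two_le (Ne.symm hp2))
  obtain ⟨t, ht⟩ := hdvd
  have h1 : ⁅QuotientGroup.mk' (Ms p H (i + 1)) h, QuotientGroup.mk' (Ms p H (i + 1)) g⁆ ^ p
      = 1 := by
    rw [← map_commutatorElement, ← map_pow]
    exact (QuotientGroup.eq_one_iff _).2 (Gs_succ_le_Ms H (i + 1) (pow_mem_Gs c hi hcm))
  rw [ht, pow_mul, h1, one_pow, mul_one]

theorem pow_zero_on (hp2 : p ≠ 2) (c : Ctx p H x) (hi : i + 1 < x)
    (hμ : AddOn (Gs p H (i + 1)) μ)
    (hk : ∀ g ∈ Gs p H (i + 1), (μ g = 0 ↔ g ∈ Ms p H (i + 1))) :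
    ∀ g ∈ Ms p H i, μ (g ^ p) = 0 := by
  have hA := pow_addOn hp2 c hi hμ hk
  have hi' : i < x := by omega
  have hle : Ms p H i ≤ hA.ker := by
    refine sup_le ?_ ?_
    · rw [Subgroup.commutator_comm, Subgroup.commutator_le]
      intro z _ g hg
      refine ⟨comm_mem_Gs hg z, ?_⟩
      have h1 : z * g * z⁻¹ = ⁅z, g⁆ * g := by rw [commutatorElement_def]; group
      have h2 := hA.mul _ (comm_mem_Gs hg z) g hg
      rw [← h1] at h2
      have h3 : (z * g * z⁻¹) ^ p = z * g ^ p * z⁻¹ := conj_pow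
      simp only [h3] at h2
      rw [mu_conj hμ hk (pow_mem_Gs c hi' hg) z] at h2
      exact (right_eq_add.1 h2)
    · intro g hg
      refine ⟨Gs_anti H i hg, ?_⟩
      show μ (g ^ p) = 0
      rw [hk _ (pow_mem hg p)]
      exact Gs_succ_le_Ms H (i + 1) (pow_mem_Gs c hi hg)
  intro g hg
  exact (hle hg).2

end finite

end Pool.Agent.Helper34.Coclass
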