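import Pool.Agent.Helper34.Coclass.Key1

/-!
# The generic commutator argument
-/

set_option linter.unusedSectionVars false
set_option linter.unusedVariables false

noncomputable section

namespace Pool.Agent.Helper34.Coclass

open Module MonoidAlgebra

open scoped commutatorElement

theorem of_pow_congr (K : Type*) [Field K] {Q : Type*} [Group Q] {m : ℕ} (hm : 1 ≤ m) {u : Q}
    (hu : u ∈ dimSub K m) (n : ℕ) :
    (of K Q (u ^ n) - 1) - (n : K) • (of K Q u - 1) ∈ filt K Q (m + 1) := by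
  induction n with
  | zero =>
    rw [pow_zero, map_one, Nat.cast_zero, zero_smul, sub_self, sub_self]
    exact zero_mem _
  | succ n ih =>
    have h1 : (of K Q (u ^ (n + 1)) - 1) - ((n + 1 : ℕ) : K) • (of K Q u - 1) =
        (of K Q (u ^ n) - 1) * (of K Q u - 1) +
          ((of K Q (u ^ n) - 1) - (n : K) • (of K Q u - 1)) := by
      rw [pow_succ, map_mul, Nat.cast_succ, add_smul, one_smul]
      noncomm_ring
    rw [h1]
    refine add_mem ?_ ih
    have h2 := mul_mem_filt K (mem_dimSub K |>.1 (pow_mem hu n)) (mem_dimSub K |>.1 hu)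
    exact filt_anti K (by omega) h2

variable {p : ℕ} [hp : Fact p.Prime] {P : Type*} [Group P] {H : Subgroup P} {x j : ℕ}

section generic

variable {K : Type*} [Field K] [Algebra (ZMod p) K] [CharP K p] [Fintype P] {c : P → K}

theorem genX_comm (c : P → K) (A : MonoidAlgebra K P) :
    genX c * A - A * genX c = ∑ z, c z • ((of K P z - 1) * A - A * (of K P z - 1)) := by
  rw [genX, Finset.sum_mul, Finset.mul_sum, ← Finset.sum_sub_distrib]
  refine Finset.sum_congr rfl fun z _ => ?_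
  rw [smul_mul_assoc, mul_smul_comm, smul_sub]

theorem keyB (cx : Ctx p H x) (hj : j + 1 < x) (hc : LinearIndependent (ZMod p) c) {y₀ z₀ : P}
    (hy₀ : y₀ ∈ Ys p H j) (hz₀ : ⁅z₀, y₀⁆ ∉ Ms p H (j + 1))
    (hQ : ∀ n, 1 ≤ n → dimSub K (G := P ⧸ Ms p H (j + 1)) n ≤
      (dimSub K (G := P) n).map (QuotientGroup.mk' (Ms p H (j + 1)))) :
    ∃ w ∈ dimSub K (G := P) (p ^ j + 2), w ∉ Ms p H (j + 1) := by
  have hj' : j < x := by omega
  obtain ⟨e, he, he'⟩ := exists_e' cx hj'
  obtain ⟨μ, hμ, hk, -⟩ := exists_mu' cx hj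
  obtain ⟨y₁, hy₁, hy₁0⟩ := exists_y (K := K) cx hc he he'
  obtain ⟨A, hA, hAX, hA0⟩ := exists_A (K := K) cx hc he he'
  have hy₁Y : y₁ ∈ Ys p H j := dimSub_le_Ys K cx hj' hy₁
  -- the additive function κ
  set κ : P → ZMod p := fun g => av e g 1 with hκdef
  have hκ : AddOn (Ys p H j) κ := by
    constructor
    intro g hg h _
    show av e (g * h) 1 = av e g 1 + av e h 1
    rw [av_mul he (Ys_le H j hg)]
    rfl
  have hκ0 : ∀ g ∈ Ys p H j, (κ g = 0 ↔ g ∈ Gs p H (j + 1)) :=
    fun g hg => av_Ys_zero cx hj' he he' hg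
  have hκ1 : κ y₁ ≠ 0 := by
    intro h
    apply hy₁0
    rw [av_Ys_eq cx hj' he hy₁Y]
    ext z
    exact h
  have hcomm : ∀ z : P, ∀ g ∈ Ys p H j, ⁅z, g⁆ ∈ Gs p H (j + 1) := fun z g hg => (mem_Ys.1 hg).2 z
  have hψ : ∀ z : P, AddOn (Ys p H j) (fun g => μ ⁅z, g⁆) := by
    intro z
    constructor
    intro g hg h hh
    show μ ⁅z, g * h⁆ = μ ⁅z, g⁆ + μ ⁅z, h⁆
    have h1 : ⁅z, g * h⁆ = ⁅z, g⁆ * (g * ⁅z, h⁆ * g⁻¹) := by
      simp only [commutatorElement_def]; group
    rw [h1, hμ.mul _ (hcomm z g hg) _ ((Gs_normal H (j + 1)).conj_mem _ (hcomm z h hh) g),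
      mu_conj hμ hk (hcomm z h hh) g]
  have hratio : ∀ z : P, ∀ g ∈ Ys p H j, μ ⁅z, g⁆ = κ g * (μ ⁅z, y₁⁆ / κ y₁) := by
    intro z g hg
    refine hκ.ratio (hψ z) ?_ hy₁Y hκ1 hg
    intro g hg h0
    show μ ⁅z, g⁆ = 0
    rw [hk _ (hcomm z g hg)]
    exact comm_mem_Ms ((hκ0 g hg).1 h0) z
  set φ : P → ZMod p := fun z => μ ⁅z, y₁⁆ / κ y₁ with hφdef
  have hφ0 : φ z₀ ≠ 0 := by
    intro h0
    apply hz₀
    rw [← hk _ (hcomm z₀ y₀ hy₀), hratio z₀ y₀ hy₀]
    show κ y₀ * φ z₀ = 0
    rw [h0, mul_zero]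
  set ω : P := ⁅z₀, y₁⁆ with hωdef
  have hωG : ω ∈ Gs p H (j + 1) := hcomm z₀ y₁ hy₁Y
  have hμω : μ ω ≠ 0 := by
    intro h0
    apply hφ0
    show μ ω / κ y₁ = 0
    rw [h0, zero_div]
  have hω : ω ∈ dimSub K (G := P) (p ^ j + 1) := by
    have hz : z₀ ∈ dimSub K (G := P) 1 := by rw [dimSub_one]; trivial
    have := commutator_mem_dimSub K hz hy₁
    rwa [add_comm] at this
  set q := QuotientGroup.mk' (Ms p H (j + 1)) with hq
  have hqω : q ω ∈ dimSub K (p ^ j + 1) := map_dimSub K q hω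
  set W := of K (P ⧸ Ms p H (j + 1)) (q ω) - 1 with hW
  -- claim 1
  have claim1 : ∀ a ∈ Gs p H (j + 1), (of K (P ⧸ Ms p H (j + 1)) (q a) - 1) -
      (algebraMap (ZMod p) K (μ a / μ ω)) • W ∈ filt K (P ⧸ Ms p H (j + 1)) (p ^ j + 2) := by
    intro a ha
    obtain ⟨n, hn, hn'⟩ := hμ.exists_pow hωG hμω ha
    rw [hk _ (mul_mem ha (inv_mem (pow_mem hωG n)))] at hn'
    have h1 : q a = q ω ^ n := by
      rw [← map_pow]
      apply QuotientGroup.eq_iff_div_mem.2
      rwa [div_eq_mul_inv]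
    rw [h1, ← hn, map_natCast]
    exact of_pow_congr K (by omega) hqω n
  clear_value W
  set Φ := mapDomainAlgHom K K q with hΦ
  have hΦof : ∀ g : P, Φ (of K P g - 1) = of K (P ⧸ Ms p H (j + 1)) (q g) - 1 := by
    intro g
    simp [hΦ, map_sub]
  set S : K := ∑ z, c z * algebraMap (ZMod p) K (φ z / μ ω) with hS
  have hS0 : S ≠ 0 := by
    apply generic_sum_ne hc
    intro h
    have := congrFun h z₀
    exact (div_ne_zero hφ0 hμω) this
  -- claim 2
  have claim2 : ∀ B ∈ Submodule.span K (dimSet K (G := P) (p ^ j)), ∃ θ : K,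
      (tr K).asAlgebraHom B (cst K e) = θ • (fun _ => (1 : K)) ∧
      Φ (genX c * B - B * genX c) - (θ * S) • W ∈
        filt K (P ⧸ Ms p H (j + 1)) (p ^ j + 2) := by
    intro B hB
    induction hB using Submodule.span_induction with
    | mem B hB =>
      obtain ⟨g, hg, rfl⟩ := hB
      have hgY := dimSub_le_Ys K cx hj' hg
      refine ⟨algebraMap (ZMod p) K (κ g), ?_, ?_⟩
      · rw [map_sub, map_one, Representation.asAlgebraHom_of]
        show tr K g (cst K e) - cst K e = _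
        rw [tr_cst, ← cst_sub]
        have h1 : tr (ZMod p) g e - e = fun _ => κ g := av_Ys_eq cx hj' he hgY
        rw [h1]
        ext z
        simp [cst]
      · have h1 : Φ (genX c * (of K P g - 1) - (of K P g - 1) * genX c) -
            (algebraMap (ZMod p) K (κ g) * S) • W =
            ∑ z, c z • (Φ ((of K P z - 1) * (of K P g - 1) - (of K P g - 1) * (of K P z - 1)) -
              (algebraMap (ZMod p) K (κ g * (φ z / μ ω))) • W) := by
          rw [genX_comm, map_sum, hS, Finset.mul_sum, Finset.sum_smul, ← Finset.sum_sub_distrib]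
          refine Finset.sum_congr rfl fun z _ => ?_
          rw [map_smul, smul_sub, smul_smul, map_mul]
          congr 2
          ring
        rw [h1]
        refine Submodule.sum_mem _ fun z _ => Submodule.smul_mem _ _ ?_
        have hz : z ∈ dimSub K (G := P) 1 := by rw [dimSub_one]; trivial
        have h2 := map_filt K q (commutator_congr K hz hg)
        rw [show 1 + p ^ j + 1 = p ^ j + 2 by ring, ← hΦ, map_sub, hΦof] at h2
        have h3 := claim1 _ (hcomm z g hgY)
        rw [hratio z g hgY] at h3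
        have h4 := sub_mem h3 h2
        convert h4 using 1
        rw [mul_div_assoc]
        abel
    | zero =>
      refine ⟨0, ?_, ?_⟩
      · rw [map_zero, zero_smul]; rfl
      · simp
    | add B₁ B₂ _ _ h₁ h₂ =>
      obtain ⟨θ₁, h11, h12⟩ := h₁
      obtain ⟨θ₂, h21, h22⟩ := h₂
      refine ⟨θ₁ + θ₂, ?_, ?_⟩
      · rw [map_add, LinearMap.add_apply, h11, h21, add_smul]
      · have := add_mem h12 h22
        convert this using 1
        rw [mul_add, add_mul (c := genX c), add_mul θ₁ θ₂, add_smul, add_sub_add_comm,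
          map_add]
        abel
    | smul a B _ h =>
      obtain ⟨θ, h1, h2⟩ := h
      refine ⟨a * θ, ?_, ?_⟩
      · rw [map_smul, LinearMap.smul_apply, h1, smul_smul]
      · have := Submodule.smul_mem _ a h2
        convert this using 1
        rw [mul_smul_comm, smul_mul_assoc, ← smul_sub, map_smul, smul_sub, smul_smul, mul_assoc]
  obtain ⟨θ, hθ1, hθ2⟩ := claim2 A hA
  have hθ0 : θ ≠ 0 := by
    rintro rfl
    apply hA0
    rw [hθ1, zero_smul]
  -- the generic element commutes with its powers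
  have h1 : genX c * A - A * genX c ∈ filt K P (p ^ j + 2) := by
    have h2 : genX c * A - A * genX c = (genX c ^ (p ^ j) - A) * genX c -
        genX c * (genX c ^ (p ^ j) - A) := by
      rw [sub_mul, mul_sub, ← pow_succ, ← pow_succ']
      abel
    rw [h2]
    have hX : genX c ∈ filt K P 1 := by rw [filt_one]; exact genX_mem c
    have h3 := filt_comm K hAX hX
    rwa [add_assoc] at h3
  have h3 := map_filt K q h1
  rw [← hΦ] at h3
  have h4 := sub_mem h3 hθ2
  rw [sub_sub_cancel] at h4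
  have h5 : W ∈ filt K (P ⧸ Ms p H (j + 1)) (p ^ j + 2) := by
    have := Submodule.smul_mem _ (θ * S)⁻¹ h4
    rwa [smul_smul, inv_mul_cancel₀ (mul_ne_zero hθ0 hS0), one_smul] at this
  rw [hW] at h5
  have h6 : q ω ∈ dimSub K (G := P ⧸ Ms p H (j + 1)) (p ^ j + 2) := h5
  obtain ⟨w, hw, hwω⟩ := hQ _ (by omega) h6
  refine ⟨w, hw, ?_⟩
  intro hwM
  apply hμω
  rw [hk _ hωG]
  have h7 : q w = 1 := (QuotientGroup.eq_one_iff w).2 hwM
  rw [hwω] at h7
  exact (QuotientGroup.eq_one_iff ω).1 h7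

end generic

end Pool.Agent.Helper34.Coclass
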