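import Pool.Agent.Helper34.Coclass.Key2
import Pool.Agent.Helper11.Coclass.DimRec2

/-!
# The key lemma: `[Y_j, P]` lies in the maximal stable subgroup of `G_{j+1}`
-/

set_option linter.unusedSectionVars false
set_option linter.unusedVariables false

noncomputable section

namespace Pool.Agent.Helper34.Coclass

open Module MonoidAlgebra

open scoped commutatorElement

theorem comm_of_cyclic {P : Type*} [Group P] {N : Subgroup P} [hN : N.Normal] {x₀ : P}
    (h : Subgroup.zpowers x₀ ⊔ N = ⊤) (a b : P) : ⁅a, b⁆ ∈ N := by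
  have key : ∀ a : P, ∃ k : ℤ, QuotientGroup.mk' N a = (QuotientGroup.mk' N x₀) ^ k := by
    intro a
    have ha : a ∈ Subgroup.zpowers x₀ ⊔ N := by rw [h]; trivial
    obtain ⟨u, hu, n, hn, rfl⟩ := Subgroup.mem_sup_of_normal_right.1 ha
    obtain ⟨k, rfl⟩ := Subgroup.mem_zpowers_iff.1 hu
    refine ⟨k, ?_⟩
    rw [map_mul, map_zpow, (QuotientGroup.eq_one_iff n).2 hn |> (fun h => (h : QuotientGroup.mk' N n = 1)),
      mul_one]
  obtain ⟨k, hk⟩ := key a
  obtain ⟨l, hl⟩ := key b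
  apply (QuotientGroup.eq_one_iff _).1
  show QuotientGroup.mk' N ⁅a, b⁆ = 1
  rw [map_commutatorElement, hk, hl, commutatorElement_eq_one_iff_mul_comm, ← zpow_add,
    ← zpow_add, add_comm]

variable {p : ℕ} [hp : Fact p.Prime] {P : Type} [Group P] [Finite P] {H : Subgroup P} {x : ℕ}

/-- The key property at level `j`. -/
def Key (p : ℕ) [Fact p.Prime] {P : Type} [Group P] (H : Subgroup P) (j : ℕ) : Prop :=
  ∀ y ∈ Ys p H j, ∀ z : P, ⁅z, y⁆ ∈ Ms p H (j + 1)

variable (K : Type) [Field K] [Algebra (ZMod p) K] [CharP K p]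

theorem exists_pow_not_mem (hP : IsPGroup p P) {n : ℕ} (hn : 2 ≤ n) {M : Subgroup P}
    (hM : ⁅dimSub K (G := P) (n - 1), (⊤ : Subgroup P)⁆ ≤ M) {w : P}
    (hw : w ∈ dimSub K (G := P) n) (hwM : w ∉ M) :
    ∃ h ∈ dimSub K (G := P) ((n + p - 1) / p), h ^ p ∉ M := by
  by_contra hcon
  push Not at hcon
  apply hwM
  rw [Pool.Agent.Helper11.Coclass.dimSub_recursion (K := K) hP hn] at hw
  refine (sup_le hM ?_ : _ ≤ M) hw
  rw [Pool.Agent.Helper11.Coclass.PP, Subgroup.closure_le]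
  rintro _ ⟨h, hh, rfl⟩
  exact hcon h hh

variable {K}

theorem descend (hp2 : p ≠ 2) (cx : Ctx p H x) {i n : ℕ} (hi : i + 1 < x)
    (hn : ∀ i', i = i' + 1 → n = p ^ i' + 1)
    (h : ∃ h ∈ dimSub K (G := P) n, h ^ p ∉ Ms p H (i + 1)) :
    (∃ h ∈ Gs p H i, h ^ p ∉ Ms p H (i + 1)) ∧
      (∀ i', i = i' + 1 → ∃ h ∈ dimSub K (G := P) (p ^ i' + 1), h ∉ Ms p H (i' + 1)) := by
  obtain ⟨h, hh, hhp⟩ := h
  have h1 : h ∈ Gs p H i := by
    cases i with
    | zero => rw [Gs_zero]; trivial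
    | succ i' =>
      rw [hn i' rfl] at hh
      exact dimSub_succ_le_Gs K cx (by omega) hh
  refine ⟨⟨h, h1, hhp⟩, ?_⟩
  rintro i' rfl
  rw [hn i' rfl] at hh
  refine ⟨h, hh, ?_⟩
  intro hM
  obtain ⟨μ, hμ, hk, -⟩ := exists_mu' cx hi
  have h2 := pow_zero_on hp2 cx hi hμ hk h hM
  apply hhp
  rw [← hk _ (pow_mem_Gs cx (by omega) h1)]
  exact h2

theorem exists_E (hp2 : p ≠ 2) (cx : Ctx p H x) {j : ℕ} (hj : j + 1 < x)
    (IH : ∀ i < j, Key p H i)
    (hw : ∃ w ∈ dimSub K (G := P) (p ^ j + 2), w ∉ Ms p H (j + 1)) :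
    ∀ i ≤ j, ∃ h ∈ Gs p H i, h ^ p ∉ Ms p H (i + 1) := by
  have hp0 := hp.out.pos
  have hp1 := hp.out.two_le
  have main : ∀ k ≤ j, (∃ h ∈ Gs p H (j - k), h ^ p ∉ Ms p H (j - k + 1)) ∧
      (∀ i', j - k = i' + 1 →
        ∃ h ∈ dimSub K (G := P) (p ^ i' + 1), h ∉ Ms p H (i' + 1)) := by
    intro k
    induction k with
    | zero =>
      intro _
      rw [Nat.sub_zero]
      obtain ⟨w, hw, hwM⟩ := hw
      have h1 : ⁅dimSub K (G := P) (p ^ j + 2 - 1), (⊤ : Subgroup P)⁆ ≤ Ms p H (j + 1) := by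
        refine le_trans (Subgroup.commutator_mono ?_ le_rfl) le_sup_left
        exact dimSub_succ_le_Gs K cx (by omega)
      have h2 := exists_pow_not_mem K cx.pgrp (by omega) h1 hw hwM
      refine descend hp2 cx hj ?_ h2
      rintro i' rfl
      have h3 : p ^ (i' + 1) + 2 + p - 1 = 1 + p * (p ^ i' + 1) := by
        rw [pow_succ]
        have : p ^ i' * p + 2 + p - 1 = p ^ i' * p + 1 + p := by omega
        rw [this]; ring
      rw [h3, Nat.add_mul_div_left _ _ hp0, Nat.div_eq_of_lt (by omega), zero_add]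
    | succ k ih =>
      intro hk
      obtain ⟨-, h2⟩ := ih (by omega)
      obtain ⟨w, hw, hwM⟩ := h2 (j - (k + 1)) (by omega)
      set i := j - (k + 1) with hi
      have h1 : ⁅dimSub K (G := P) (p ^ i + 1 - 1), (⊤ : Subgroup P)⁆ ≤ Ms p H (i + 1) := by
        rw [Nat.add_sub_cancel, Subgroup.commutator_comm, Subgroup.commutator_le]
        intro z _ y hy
        exact IH i (by omega) y (dimSub_le_Ys K cx (by omega) hy) z
      have h2 := exists_pow_not_mem K cx.pgrp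
        (by have := Nat.one_le_pow i p hp0; omega) h1 hw hwM
      refine descend hp2 cx (by omega) ?_ h2
      rintro i' hi'
      rw [hi']
      have h3 : p ^ (i' + 1) + 1 + p - 1 = 0 + p * (p ^ i' + 1) := by
        rw [pow_succ]
        have : p ^ i' * p + 1 + p - 1 = p ^ i' * p + p := by omega
        rw [this]; ring
      rw [h3, Nat.add_mul_div_left _ _ hp0, Nat.zero_div, zero_add]
  intro i hi
  have := (main (j - i) (by omega)).1
  rwa [show j - (j - i) = i by omega] at this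

theorem stepD (hp2 : p ≠ 2) (cx : Ctx p H x) {j : ℕ} (hj : j + 1 < x)
    (hE : ∀ i ≤ j, ∃ h ∈ Gs p H i, h ^ p ∉ Ms p H (i + 1)) (a b : P) :
    ⁅a, b⁆ ∈ Gs p H (j + 2) := by
  obtain ⟨x₀, hx₀, hx₀'⟩ := SetLike.not_le_iff_exists.1 (Gs_not_le cx (i := 0) (by omega))
  have h1 : ∀ i ≤ j + 1, x₀ ^ p ^ i ∈ Gs p H i ∧ x₀ ^ p ^ i ∉ Ms p H i := by
    intro i
    induction i with
    | zero =>
      intro _
      rw [pow_zero, pow_one]
      refine ⟨hx₀, fun h => hx₀' ?_⟩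
      refine (sup_le ?_ le_rfl : Ms p H 0 ≤ Gs p H 1) h
      rw [Subgroup.commutator_le]
      intro g hg z _
      exact comm_mem_Gs_succ cx (by omega) hg (by rw [Gs_zero]; trivial)
    | succ i ih =>
      intro hi
      obtain ⟨h2, h3⟩ := ih (by omega)
      rw [pow_succ, pow_mul]
      refine ⟨pow_mem_Gs cx (by omega) h2, fun h4 => ?_⟩
      obtain ⟨μ, hμ, hk, -⟩ := exists_mu' cx (i := i) (by omega)
      obtain ⟨μ', hμ', hk', -⟩ := exists_mu' cx (i := i + 1) (by omega)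
      have h5 := pow_addOn hp2 cx (by omega) hμ' hk'
      have h6 : μ (x₀ ^ p ^ i) ≠ 0 := fun h => h3 ((hk _ h2).1 h)
      obtain ⟨y, hy, hy'⟩ := hE i (by omega)
      have h7 := hμ.ratio h5 (fun g hg hg0 => pow_zero_on hp2 cx (by omega) hμ' hk' g
        ((hk g hg).1 hg0)) h2 h6 hy
      apply hy'
      rw [← hk' _ (pow_mem_Gs cx (by omega) hy)]
      have h8 : μ' ((x₀ ^ p ^ i) ^ p) = 0 := (hk' _ (pow_mem_Gs cx (by omega) h2)).2 h4
      rw [h7, h8, zero_div, mul_zero]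
  have h2 : ∀ i ≤ j + 2, Subgroup.zpowers x₀ ⊔ Gs p H i = ⊤ := by
    intro i
    induction i with
    | zero => intro _; rw [Gs_zero, sup_top_eq]
    | succ i ih =>
      intro hi
      have h3 := ih (by omega)
      obtain ⟨h4, h5⟩ := h1 i (by omega)
      obtain ⟨μ, hμ, hk, -⟩ := exists_mu' cx (i := i) (by omega)
      have h6 : μ (x₀ ^ p ^ i) ≠ 0 := fun h => h5 ((hk _ h4).1 h)
      have h7 : Gs p H i ≤ Subgroup.zpowers x₀ ⊔ Ms p H i := by
        intro g hg
        obtain ⟨n, -, hn⟩ := hμ.exists_pow h4 h6 hg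
        rw [hk _ (mul_mem hg (inv_mem (pow_mem h4 n)))] at hn
        have h8 : g = (g * ((x₀ ^ p ^ i) ^ n)⁻¹) * (x₀ ^ p ^ i) ^ n := by group
        rw [h8]
        refine mul_mem (Subgroup.mem_sup_right hn) (Subgroup.mem_sup_left ?_)
        exact pow_mem (pow_mem (Subgroup.mem_zpowers x₀) _) _
      have h8 : Ms p H i ≤ ⁅(⊤ : Subgroup P), ⊤⁆ ⊔ Gs p H (i + 1) :=
        sup_le_sup_right (Subgroup.commutator_mono le_top le_rfl) _
      apply eq_top_of_sup_commutator cx.pgrp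
      rw [eq_top_iff]
      calc (⊤ : Subgroup P) = Subgroup.zpowers x₀ ⊔ Gs p H i := h3.symm
        _ ≤ Subgroup.zpowers x₀ ⊔ (Subgroup.zpowers x₀ ⊔ Ms p H i) := sup_le_sup_left h7 _
        _ ≤ Subgroup.zpowers x₀ ⊔ (Subgroup.zpowers x₀ ⊔
            (⁅(⊤ : Subgroup P), ⊤⁆ ⊔ Gs p H (i + 1))) :=
          sup_le_sup_left (sup_le_sup_left h8 _) _
        _ ≤ Subgroup.zpowers x₀ ⊔ Gs p H (i + 1) ⊔ ⁅(⊤ : Subgroup P), ⊤⁆ := by
          refine sup_le (le_sup_left.trans le_sup_left) (sup_le (le_sup_left.trans le_sup_left)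
            (sup_le le_sup_right (le_sup_right.trans le_sup_left)))
  exact comm_of_cyclic (h2 (j + 2) le_rfl) a b

theorem key (hp2 : p ≠ 2) (cx : Ctx p H x) (j : ℕ) (hj : j + 1 < x) : Key p H j := by
  induction j using Nat.strong_induction_on with
  | _ j ih =>
    by_contra hcon
    rw [Key] at hcon
    push Not at hcon
    obtain ⟨y₀, hy₀, z₀, hz₀⟩ := hcon
    obtain ⟨K, _, _, _, c, hc⟩ := exists_generic p P
    have : Fintype P := Fintype.ofFinite P
    have h1 := keyB (K := K) cx hj hc hy₀ hz₀ (fun n _ => by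
      rw [Pool.Agent.Helper11.Coclass.dimSub_map_surj (K := K) cx.pgrp
        (QuotientGroup.mk' (Ms p H (j + 1))) (QuotientGroup.mk'_surjective _) n])
    have h2 := exists_E hp2 cx hj (fun i hi => ih i hi (by omega)) h1
    exact hz₀ (Gs_succ_le_Ms H (j + 1) (stepD hp2 cx hj h2 z₀ y₀))

end Pool.Agent.Helper34.Coclass
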