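import Pool.Agent.Helper34.Coclass.Chain

/-!
# The tower of kernels on the functions of degree less than `p ^ i`
-/

set_option linter.unusedSectionVars false

noncomputable section

namespace Pool.Agent.Helper34.Coclass

open Module

open scoped commutatorElement

variable {p : ℕ} [hp : Fact p.Prime] {P : Type*} [Group P]

/-- The elements fixing the functions in the `p ^ i`-th term of the Loewy series. -/
def Gs (p : ℕ) [Fact p.Prime] {P : Type*} [Group P] (H : Subgroup P) (i : ℕ) : Subgroup P where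
  carrier := {g | ∀ f ∈ J (ZMod p) H (p ^ i), tr (ZMod p) g f = f}
  mul_mem' := by
    intro a b ha hb f hf
    rw [tr_mul, hb f hf, ha f hf]
  one_mem' := fun f _ => tr_one _ f
  inv_mem' := by
    intro a ha f hf
    conv_lhs => rw [← ha f hf]
    rw [← tr_mul, inv_mul_cancel, tr_one]

variable {H : Subgroup P}

theorem mem_Gs {i : ℕ} {g : P} :
    g ∈ Gs p H i ↔ ∀ f ∈ J (ZMod p) H (p ^ i), tr (ZMod p) g f = f := Iff.rfl

instance Gs_normal (H : Subgroup P) (i : ℕ) : (Gs p H i).Normal := by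
  constructor
  intro g hg z f hf
  rw [tr_mul, tr_mul, hg _ (tr_mem_J hf z⁻¹), ← tr_mul, mul_inv_cancel, tr_one]

theorem Gs_anti (H : Subgroup P) (i : ℕ) : Gs p H (i + 1) ≤ Gs p H i := by
  intro g hg f hf
  exact hg f (J_mono H (Nat.pow_le_pow_right hp.out.pos (Nat.le_succ i)) hf)

theorem Gs_zero (H : Subgroup P) : Gs p H 0 = ⊤ := by
  rw [eq_top_iff]
  intro g _ f hf
  rw [pow_zero] at hf
  have := (mem_J_succ.1 hf).2 g
  rw [mem_J_zero] at this
  exact sub_eq_zero.1 this

theorem J_one_const {f : P → ZMod p} (hf : f ∈ J (ZMod p) H 1) (z : P) : f z = f 1 := by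
  have := (mem_J_succ.1 hf).2 z⁻¹
  rw [mem_J_zero] at this
  have h := congrFun (sub_eq_zero.1 this) 1
  rw [tr_apply, inv_inv, mul_one] at h
  exact h

section finite

variable [Finite P]

theorem Inv_eq_J (hP : IsPGroup p P) (hu : Uni p H) {L : Subgroup P} (hHL : H ≤ L) :
    Inv (ZMod p) L = J (ZMod p) H L.index := by
  have := eq_J hP hu (Inv_anti hHL) (Stab_Inv L)
  rwa [finrank_Inv] at this

theorem exists_L (hP : IsPGroup p P) {x : ℕ} (hx : H.index = p ^ x) {i : ℕ} (hi : i ≤ x) :
    ∃ L : Subgroup P, H ≤ L ∧ L.index = p ^ i := by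
  obtain ⟨m, hm⟩ := hP.exists_card_eq
  have h1 : Nat.card H * p ^ x = p ^ m := by
    rw [← hm, ← hx, Subgroup.card_mul_index]
  have hxm : x ≤ m := by
    have : p ^ x ∣ p ^ m := ⟨_, by rw [← h1, mul_comm]⟩
    exact (Nat.pow_dvd_pow_iff_le_right hp.out.one_lt).1 this
  have h2 : Nat.card H = p ^ (m - x) := by
    have : Nat.card H * p ^ x = p ^ (m - x) * p ^ x := by
      rw [h1, ← pow_add, Nat.sub_add_cancel hxm]
    exact Nat.eq_of_mul_eq_mul_right (pow_pos hp.out.pos x) this
  obtain ⟨L, hL, hHL⟩ := Sylow.exists_subgroup_card_pow_prime_le p (n := m - x) (m := m - i)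
    (by rw [hm]; exact pow_dvd_pow p (Nat.sub_le m i)) H h2 (by omega)
  refine ⟨L, hHL, ?_⟩
  have h3 := L.card_mul_index
  rw [hL, hm] at h3
  have : p ^ (m - i) * L.index = p ^ (m - i) * p ^ i := by
    rw [h3, ← pow_add, Nat.sub_add_cancel (by omega)]
  exact Nat.eq_of_mul_eq_mul_left (pow_pos hp.out.pos _) this

theorem index_le_finrank {x : ℕ} (hx : H.index = p ^ x) :
    finrank (ZMod p) (Inv (ZMod p) H) = p ^ x := by
  rw [finrank_Inv, hx]

theorem pow_lt_of_lt {i x : ℕ} (hi : i < x) : p ^ i < p ^ x :=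
  Nat.pow_lt_pow_right hp.out.one_lt hi

theorem exists_e (hP : IsPGroup p P) (hu : Uni p H) {x : ℕ} (hx : H.index = p ^ x) {n : ℕ}
    (hi : n < p ^ x) : ∃ e ∈ J (ZMod p) H (n + 1), e ∉ J (ZMod p) H n := by
  apply J_lt hP
  intro h
  have h1 := finrank_J hP hu (n := n) (by rw [index_le_finrank hx]; exact hi.le)
  rw [h, index_le_finrank hx] at h1
  omega

/-- An element fixing all functions in the term number `p ^ i + 1` of the Loewy series fixes
those in the term number `p ^ (i + 1)`. -/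
theorem star (hP : IsPGroup p P) (hu : Uni p H) {x : ℕ} (hx : H.index = p ^ x) {i : ℕ}
    (hi : i < x) {g : P} (hg : ∀ f ∈ J (ZMod p) H (p ^ i + 1), tr (ZMod p) g f = f) :
    g ∈ Gs p H (i + 1) := by
  classical
  obtain ⟨L, hHL, hL⟩ := exists_L hP hx hi.le
  obtain ⟨L', hHL', hL'⟩ := exists_L hP hx (i := i + 1) hi
  have hI : Inv (ZMod p) L = J (ZMod p) H (p ^ i) := by rw [Inv_eq_J hP hu hHL, hL]
  have hI' : Inv (ZMod p) L' = J (ZMod p) H (p ^ (i + 1)) := by rw [Inv_eq_J hP hu hHL', hL']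
  have hpi : p ^ i + 1 ≤ p ^ (i + 1) := Nat.pow_lt_pow_right hp.out.one_lt (Nat.lt_succ_self i)
  have hII : Inv (ZMod p) L ≤ Inv (ZMod p) L' := by
    rw [hI, hI']
    exact J_mono H (by omega)
  have hLL : L' ≤ L := by
    intro h hh
    have h1 : (fun z => if z ∈ L then (1 : ZMod p) else 0) ∈ Inv (ZMod p) L := by
      intro z y hy
      have : z * y ∈ L ↔ z ∈ L := Subgroup.mul_mem_cancel_right L hy
      simp only [this]
    have h2 := hII h1 1 h hh
    by_contra hcon
    simp [hcon, one_mem] at h2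
  obtain ⟨e, he, he'⟩ := exists_e hP hu hx (pow_lt_of_lt hi)
  have hχ : ∀ y : P, ∀ h ∈ L, e (y * h) - e y = e h - e 1 := by
    intro y h hh
    have h1 := (mem_J_succ.1 he).2 y⁻¹
    rw [← hI] at h1
    have h2 := h1 1 h hh
    simp only [Pi.sub_apply, tr_apply, inv_inv, mul_one, one_mul] at h2
    linear_combination h2
  let M : Subgroup P :=
    { carrier := {h | h ∈ L ∧ e h = e 1}
      mul_mem' := by
        rintro a b ⟨ha, ha'⟩ ⟨hb, hb'⟩
        refine ⟨mul_mem ha hb, ?_⟩
        have := hχ a b hb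
        rw [hb', sub_self, sub_eq_zero] at this
        rw [this, ha']
      one_mem' := ⟨one_mem _, rfl⟩
      inv_mem' := by
        rintro a ⟨ha, ha'⟩
        refine ⟨inv_mem ha, ?_⟩
        have := hχ a⁻¹ a ha
        rw [ha', sub_self, sub_eq_zero, inv_mul_cancel] at this
        exact this.symm }
  have hML : M ≤ L := fun _ h => h.1
  have hL'M : L' ≤ M := by
    intro h hh
    refine ⟨hLL hh, ?_⟩
    have h1 : e ∈ Inv (ZMod p) L' := by
      rw [hI']
      exact J_mono H hpi he
    have := h1 1 h hh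
    rwa [one_mul] at this
  have hLM : ¬ L ≤ M := by
    intro h
    apply he'
    rw [← hI]
    intro z y hy
    have := hχ z y hy
    rw [(h hy).2, sub_self, sub_eq_zero] at this
    exact this
  have hML' : M ≤ L' := by
    have h1 : L'.relIndex M * M.relIndex L = p := by
      have h2 := Subgroup.relIndex_mul_index hL'M
      have h3 := Subgroup.relIndex_mul_index hML
      rw [hL', ← h3, hL, ← mul_assoc, pow_succ, mul_comm (p ^ i)] at h2
      exact Nat.eq_of_mul_eq_mul_right (pow_pos hp.out.pos i) h2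
    have h4 : M.relIndex L ≠ 1 := by
      rw [Ne, Subgroup.relIndex_eq_one]
      exact hLM
    have h5 : L'.relIndex M = 1 := by
      rcases (Nat.dvd_prime hp.out).1 (Dvd.intro_left _ h1) with h | h
      · exact absurd h h4
      · rw [h] at h1
        exact Nat.eq_of_mul_eq_mul_right hp.out.pos (by rw [h1, one_mul])
    exact Subgroup.relIndex_eq_one.1 h5
  have hconj : ∀ z : P, z⁻¹ * (g⁻¹ * z) ∈ L' := by
    intro z
    have h0 : z⁻¹ * (g⁻¹ * z) ∈ L := by
      have h1 : (fun w => if z⁻¹ * w ∈ L then (1 : ZMod p) else 0) ∈ Inv (ZMod p) L := by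
        intro w y hy
        have : z⁻¹ * (w * y) ∈ L ↔ z⁻¹ * w ∈ L := by
          rw [← mul_assoc]
          exact Subgroup.mul_mem_cancel_right L hy
        simp only [this]
      have h2 := hg _ (J_succ H _ (hI ▸ h1))
      have h3 := congrFun h2 z
      rw [tr_apply] at h3
      by_contra hcon
      simp [hcon, one_mem] at h3
    apply hML'
    refine ⟨h0, ?_⟩
    have h1 := hχ z _ h0
    have h2 : e (g⁻¹ * z) = e z := congrFun (hg e he) z
    rw [mul_inv_cancel_left, h2, sub_self] at h1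
    exact (sub_eq_zero.1 h1.symm)
  intro f hf
  rw [← hI'] at hf
  ext z
  rw [tr_apply]
  have := hf z _ (hconj z)
  rwa [mul_inv_cancel_left] at this

end finite

end Pool.Agent.Helper34.Coclass
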