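import Pool.Agent.Helper34.Coclass.Tower

/-!
# The sections of the tower
-/

set_option linter.unusedSectionVars false
set_option linter.unusedVariables false

noncomputable section

namespace Pool.Agent.Helper34.Coclass

open Module

open scoped commutatorElement

variable {p : ℕ} [hp : Fact p.Prime] {P : Type*} [Group P]

/-- The standing assumptions. -/
structure Ctx (p : ℕ) [Fact p.Prime] {P : Type*} [Group P] (H : Subgroup P) (x : ℕ) : Prop where
  pgrp : IsPGroup p P
  uni : Uni p H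
  idx : H.index = p ^ x

/-- The difference `g • e - e`. -/
def av (e : P → ZMod p) (g : P) : P → ZMod p := tr (ZMod p) g e - e

variable {H : Subgroup P} {x i : ℕ} {e : P → ZMod p}

theorem av_mem (he : e ∈ J (ZMod p) H (p ^ i + 1)) (g : P) : av e g ∈ J (ZMod p) H (p ^ i) :=
  he.2 g

theorem av_one : av e (1 : P) = 0 := by
  rw [av, tr_one, sub_self]

theorem av_mul (he : e ∈ J (ZMod p) H (p ^ i + 1)) {g : P} (hg : g ∈ Gs p H i) (h : P) :
    av e (g * h) = av e g + av e h := by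
  have h1 := hg _ (av_mem he h)
  rw [av, map_sub, sub_eq_iff_eq_add] at h1
  rw [av, tr_mul, h1, av, av]
  abel

theorem av_pow (he : e ∈ J (ZMod p) H (p ^ i + 1)) {g : P} (hg : g ∈ Gs p H i) (n : ℕ) :
    av e (g ^ n) = n • av e g := by
  induction n with
  | zero => rw [pow_zero, av_one, zero_smul]
  | succ n ih => rw [pow_succ', av_mul he hg, ih, succ_nsmul']

theorem av_conj (he : e ∈ J (ZMod p) H (p ^ i + 1)) {g : P} (hg : g ∈ Gs p H i) (z : P) :
    av e (z * g * z⁻¹) = tr (ZMod p) z (av e g) := by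
  have h1 := hg _ (av_mem he z⁻¹)
  rw [av, map_sub, sub_eq_iff_eq_add] at h1
  rw [av, tr_mul, tr_mul, h1, av, map_add, map_sub, map_sub, ← tr_mul, mul_inv_cancel, tr_one]
  abel

theorem comm_mem_Gs {g : P} (hg : g ∈ Gs p H i) (z : P) : ⁅z, g⁆ ∈ Gs p H i := by
  rw [commutatorElement_def]
  exact mul_mem ((Gs_normal H i).conj_mem g hg z) (inv_mem hg)

theorem av_comm (he : e ∈ J (ZMod p) H (p ^ i + 1)) {g : P} (hg : g ∈ Gs p H i) (z : P) :
    av e ⁅z, g⁆ = tr (ZMod p) z (av e g) - av e g := by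
  have h1 : z * g * z⁻¹ = ⁅z, g⁆ * g := by
    rw [commutatorElement_def]; group
  have h2 := av_mul he (comm_mem_Gs hg z) g
  rw [← h1, av_conj he hg z] at h2
  rw [h2, add_sub_cancel_right]

section finite

variable [Finite P]

theorem mem_Gs_succ (c : Ctx p H x) (hi : i < x) (he : e ∈ J (ZMod p) H (p ^ i + 1))
    (he' : e ∉ J (ZMod p) H (p ^ i)) {g : P} (hg : g ∈ Gs p H i) :
    g ∈ Gs p H (i + 1) ↔ av e g = 0 := by
  constructor
  · intro h
    have hpi : p ^ i + 1 ≤ p ^ (i + 1) := Nat.pow_lt_pow_right hp.out.one_lt (Nat.lt_succ_self i)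
    rw [av, h e (J_mono H hpi he), sub_self]
  · intro h
    apply star c.pgrp c.uni c.idx hi
    intro f hf
    rw [J_succ_eq c.uni he he'] at hf
    obtain ⟨w, hw, z, hz, rfl⟩ := Submodule.mem_sup.1 hf
    obtain ⟨a, rfl⟩ := Submodule.mem_span_singleton.1 hz
    rw [map_add, hg w hw, map_smul]
    rw [av, sub_eq_zero] at h
    rw [h]

theorem exists_e' (c : Ctx p H x) (hi : i < x) :
    ∃ e ∈ J (ZMod p) H (p ^ i + 1), e ∉ J (ZMod p) H (p ^ i) :=
  exists_e c.pgrp c.uni c.idx (pow_lt_of_lt hi)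

theorem pow_mem_Gs (c : Ctx p H x) (hi : i < x) {g : P} (hg : g ∈ Gs p H i) :
    g ^ p ∈ Gs p H (i + 1) := by
  obtain ⟨e, he, he'⟩ := exists_e' c hi
  rw [mem_Gs_succ c hi he he' (pow_mem hg p), av_pow he hg]
  ext z
  simp

theorem comm_mem_Gs_succ (c : Ctx p H x) (hi : i < x) {g h : P} (hg : g ∈ Gs p H i)
    (hh : h ∈ Gs p H i) : ⁅g, h⁆ ∈ Gs p H (i + 1) := by
  obtain ⟨e, he, he'⟩ := exists_e' c hi
  rw [mem_Gs_succ c hi he he' (comm_mem_Gs hh g), av_comm he hh, hg _ (av_mem he h), sub_self]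

end finite

/-- The preimage of the fixed points of `P` on `G_i / G_{i+1}`. -/
def Ys (p : ℕ) [Fact p.Prime] {P : Type*} [Group P] (H : Subgroup P) (i : ℕ) : Subgroup P :=
  Gs p H i ⊓ (Subgroup.center (P ⧸ Gs p H (i + 1))).comap (QuotientGroup.mk' (Gs p H (i + 1)))

theorem mem_Ys {g : P} : g ∈ Ys p H i ↔ g ∈ Gs p H i ∧ ∀ z : P, ⁅z, g⁆ ∈ Gs p H (i + 1) := by
  rw [Ys, Subgroup.mem_inf, Subgroup.mem_comap, Subgroup.mem_center_iff]
  refine and_congr_right fun _ => ?_
  constructor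
  · intro h z
    have := h (QuotientGroup.mk' _ z)
    rw [← map_mul, ← map_mul] at this
    have h2 := QuotientGroup.eq_iff_div_mem.1 this
    convert h2 using 1
    rw [commutatorElement_def, div_eq_mul_inv]; group
  · intro h q
    obtain ⟨z, rfl⟩ := QuotientGroup.mk'_surjective _ q
    rw [← map_mul, ← map_mul]
    apply QuotientGroup.eq_iff_div_mem.2
    convert h z using 1
    rw [commutatorElement_def, div_eq_mul_inv]; group

instance Ys_normal (H : Subgroup P) (i : ℕ) : (Ys p H i).Normal := by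
  rw [Ys]; infer_instance

theorem Ys_le (H : Subgroup P) (i : ℕ) : Ys p H i ≤ Gs p H i := inf_le_left

theorem Gs_succ_le_Ys (H : Subgroup P) (i : ℕ) : Gs p H (i + 1) ≤ Ys p H i := by
  intro g hg
  rw [mem_Ys]
  exact ⟨Gs_anti H i hg, fun z => comm_mem_Gs hg z⟩

/-- The maximal `P`-stable subgroup of `G_i`. -/
def Ms (p : ℕ) [Fact p.Prime] {P : Type*} [Group P] (H : Subgroup P) (i : ℕ) : Subgroup P :=
  ⁅Gs p H i, (⊤ : Subgroup P)⁆ ⊔ Gs p H (i + 1)

instance Ms_normal (H : Subgroup P) (i : ℕ) : (Ms p H i).Normal := by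
  rw [Ms]; infer_instance

theorem Gs_succ_le_Ms (H : Subgroup P) (i : ℕ) : Gs p H (i + 1) ≤ Ms p H i := le_sup_right

theorem Ms_le (H : Subgroup P) (i : ℕ) : Ms p H i ≤ Gs p H i :=
  sup_le (Subgroup.commutator_le_left _ _) (Gs_anti H i)

theorem comm_mem_Ms {g : P} (hg : g ∈ Gs p H i) (z : P) : ⁅z, g⁆ ∈ Ms p H i := by
  apply Subgroup.mem_sup_left
  rw [Subgroup.commutator_comm]
  exact Subgroup.commutator_mem_commutator (Subgroup.mem_top z) hg

theorem relIndex_of_fun {A B : Subgroup P} (φ : P → ZMod p)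
    (hmul : ∀ g ∈ A, ∀ h ∈ A, φ (g * h) = φ g + φ h) (hker : ∀ g ∈ A, (φ g = 0 ↔ g ∈ B))
    (hne : ¬ A ≤ B) : B.relIndex A = p := by
  let f : A →* Multiplicative (ZMod p) := MonoidHom.mk' (fun g => Multiplicative.ofAdd (φ g)) (by
    intro a b
    rw [Subgroup.coe_mul, hmul a a.2 b b.2]
    rfl)
  have hf : f.ker = B.subgroupOf A := by
    ext g
    rw [MonoidHom.mem_ker, Subgroup.mem_subgroupOf, ← hker g g.2]
    exact Iff.rfl
  rw [Subgroup.relIndex, ← hf, Subgroup.index_ker]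
  have h1 : Nat.card f.range ∣ p := by
    have := Subgroup.card_subgroup_dvd_card f.range
    rwa [Nat.card_congr Multiplicative.toAdd, Nat.card_zmod] at this
  rcases (Nat.dvd_prime hp.out).1 h1 with h | h
  · exfalso
    apply hne
    intro g hg
    rw [← hker g hg]
    have h2 : f ⟨g, hg⟩ ∈ f.range := ⟨_, rfl⟩
    rw [Subgroup.card_eq_one.1 h, Subgroup.mem_bot] at h2
    exact h2
  · exact h

section finite

variable [Finite P]

theorem av_Ys (c : Ctx p H x) (hi : i < x) (he : e ∈ J (ZMod p) H (p ^ i + 1)) {g : P}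
    (hg : g ∈ Ys p H i) : av e g ∈ J (ZMod p) H 1 := by
  rw [mem_Ys] at hg
  refine ⟨J_le_Inv H _ (av_mem he g), fun z => ?_⟩
  rw [← av_comm he hg.1, mem_J_zero]
  have hpi : p ^ i + 1 ≤ p ^ (i + 1) := Nat.pow_lt_pow_right hp.out.one_lt (Nat.lt_succ_self i)
  rw [av, hg.2 z e (J_mono H hpi he), sub_self]

theorem av_Ys_eq (c : Ctx p H x) (hi : i < x) (he : e ∈ J (ZMod p) H (p ^ i + 1)) {g : P}
    (hg : g ∈ Ys p H i) : av e g = fun _ => av e g 1 := by
  ext z
  exact J_one_const (av_Ys c hi he hg) z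

theorem av_Ys_zero (c : Ctx p H x) (hi : i < x) (he : e ∈ J (ZMod p) H (p ^ i + 1))
    (he' : e ∉ J (ZMod p) H (p ^ i)) {g : P} (hg : g ∈ Ys p H i) :
    av e g 1 = 0 ↔ g ∈ Gs p H (i + 1) := by
  rw [mem_Gs_succ c hi he he' (Ys_le H i hg), av_Ys_eq c hi he hg]
  constructor
  · intro h; ext; exact h
  · intro h; exact congrFun h 1

theorem relIndex_Ys (c : Ctx p H x) (hi : i < x) (hne : ¬ Ys p H i ≤ Gs p H (i + 1)) :
    (Gs p H (i + 1)).relIndex (Ys p H i) = p := by
  obtain ⟨e, he, he'⟩ := exists_e' c hi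
  refine relIndex_of_fun (fun g => av e g 1) ?_ (fun g hg => av_Ys_zero c hi he he' hg) hne
  intro g hg h _
  show av e (g * h) 1 = av e g 1 + av e h 1
  rw [av_mul he (Ys_le H i hg)]
  rfl

/-- The values of `av e` on a normal subgroup. -/
def avSub (c : Ctx p H x) (he : e ∈ J (ZMod p) H (p ^ i + 1)) (N : Subgroup P)
    (hN : N ≤ Gs p H i) : Submodule (ZMod p) (P → ZMod p) where
  carrier := {f | ∃ g ∈ N, av e g = f}
  add_mem' := by
    rintro _ _ ⟨g, hg, rfl⟩ ⟨h, hh, rfl⟩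
    exact ⟨g * h, mul_mem hg hh, av_mul he (hN hg) h⟩
  zero_mem' := ⟨1, one_mem _, av_one⟩
  smul_mem' := by
    rintro a _ ⟨g, hg, rfl⟩
    refine ⟨g ^ a.val, pow_mem hg _, ?_⟩
    rw [av_pow he (hN hg)]
    ext z
    simp

theorem exists_mu (c : Ctx p H x) (hi : i < x) (hne : ¬ Gs p H i ≤ Gs p H (i + 1)) :
    ∃ μ : P → ZMod p, (∀ g ∈ Gs p H i, ∀ h ∈ Gs p H i, μ (g * h) = μ g + μ h) ∧
      (∀ g ∈ Gs p H i, (μ g = 0 ↔ g ∈ Ms p H i)) ∧ ∃ g ∈ Gs p H i, μ g ≠ 0 := by
  obtain ⟨e, he, he'⟩ := exists_e' c hi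
  set S := avSub c he (Gs p H i) le_rfl with hS
  set S' := avSub c he (Ms p H i) (Ms_le H i) with hS'
  have hstab : ∀ (N : Subgroup P) (hN : N ≤ Gs p H i) (_ : N.Normal), Stab (avSub c he N hN) := by
    rintro N hN hn z _ ⟨g, hg, rfl⟩
    exact ⟨z * g * z⁻¹, hn.conj_mem g hg z, av_conj he (hN hg) z⟩
  have hle : ∀ (N : Subgroup P) (hN : N ≤ Gs p H i), avSub c he N hN ≤ J (ZMod p) H (p ^ i) := by
    rintro N hN _ ⟨g, hg, rfl⟩
    exact av_mem he g
  have hSJ := eq_J c.pgrp c.uni ((hle _ le_rfl).trans (J_le_Inv H _))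
    (hstab (Gs p H i) le_rfl inferInstance)
  have hSJ' := eq_J c.pgrp c.uni ((hle _ (Ms_le H i)).trans (J_le_Inv H _))
    (hstab (Ms p H i) (Ms_le H i) inferInstance)
  rw [← hS] at hSJ
  rw [← hS'] at hSJ'
  set r := finrank (ZMod p) S with hr
  set r' := finrank (ZMod p) S' with hr'
  have hx := index_le_finrank (p := p) (H := H) c.idx
  have hr'p : r' ≤ p ^ i := by
    have h1 := Submodule.finrank_mono (hle (Ms p H i) (Ms_le H i))
    rw [finrank_J c.pgrp c.uni (by rw [hx]; exact (pow_lt_of_lt hi).le)] at h1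
    exact h1
  have hpx : p ^ i < p ^ x := pow_lt_of_lt hi
  -- upper bound
  have h1 : S ≤ J (ZMod p) H (r' + 1) := by
    rintro _ ⟨g, hg, rfl⟩
    refine ⟨J_le_Inv H _ (av_mem he g), fun z => ?_⟩
    rw [← hSJ', ← av_comm he hg]
    exact ⟨_, comm_mem_Ms hg z, rfl⟩
  have h2 : r ≤ r' + 1 := by
    have h3 := Submodule.finrank_mono h1
    rwa [finrank_J c.pgrp c.uni (by rw [hx]; omega), ← hr] at h3
  have hr0 : r ≠ 0 := by
    intro h0
    apply hne
    intro g hg
    rw [mem_Gs_succ c hi he he' hg]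
    have h4 : av e g ∈ S := ⟨g, hg, rfl⟩
    rw [hSJ, h0, mem_J_zero] at h4
    exact h4
  have h5 : r' ≤ r - 1 := by
    have h6 : S' ≤ J (ZMod p) H (r - 1) := by
      let B : Subgroup P :=
        { carrier := {g | g ∈ Gs p H i ∧ av e g ∈ J (ZMod p) H (r - 1)}
          mul_mem' := by
            rintro a b ⟨ha, ha'⟩ ⟨hb, hb'⟩
            refine ⟨mul_mem ha hb, ?_⟩
            rw [av_mul he ha]
            exact add_mem ha' hb'
          one_mem' := ⟨one_mem _, by rw [av_one]; exact zero_mem _⟩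
          inv_mem' := by
            rintro a ⟨ha, ha'⟩
            refine ⟨inv_mem ha, ?_⟩
            have h7 := av_mul he ha a⁻¹
            rw [mul_inv_cancel, av_one] at h7
            rw [eq_neg_of_add_eq_zero_right h7.symm]
            exact neg_mem ha' }
      have hB : Ms p H i ≤ B := by
        refine sup_le ?_ ?_
        · rw [Subgroup.commutator_comm, Subgroup.commutator_le]
          intro z _ g hg
          refine ⟨comm_mem_Gs hg z, ?_⟩
          rw [av_comm he hg]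
          have h8 : av e g ∈ S := ⟨g, hg, rfl⟩
          rw [hSJ, show r = r - 1 + 1 by omega] at h8
          exact h8.2 z
        · intro g hg
          refine ⟨Gs_anti H i hg, ?_⟩
          rw [(mem_Gs_succ c hi he he' (Gs_anti H i hg)).1 hg]
          exact zero_mem _
      rintro _ ⟨g, hg, rfl⟩
      exact (hB hg).2
    have h7 := Submodule.finrank_mono h6
    rwa [finrank_J c.pgrp c.uni (by rw [hx]; omega), ← hr'] at h7
  have h8 : r = r' + 1 := by omega
  rw [h8] at hSJ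
  have h9 : ∃ v ∈ J (ZMod p) H (r' + 1), v ∉ J (ZMod p) H r' :=
    exists_e c.pgrp c.uni c.idx (by omega)
  obtain ⟨v, hv, hv'⟩ := h9
  have h10 : ∀ g ∈ Gs p H i, ∃ a : ZMod p, av e g - a • v ∈ J (ZMod p) H r' := by
    intro g hg
    refine J_step c.uni hv hv' ?_
    rw [← hSJ]
    exact ⟨g, hg, rfl⟩
  have huniq : ∀ a : ZMod p, a • v ∈ J (ZMod p) H r' → a = 0 := by
    intro a ha
    by_contra h0
    apply hv'
    have := Submodule.smul_mem _ a⁻¹ ha
    rwa [smul_smul, inv_mul_cancel₀ h0, one_smul] at this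
  classical
  let μ : P → ZMod p := fun g => if hg : g ∈ Gs p H i then (h10 g hg).choose else 0
  have hμ : ∀ g ∈ Gs p H i, av e g - μ g • v ∈ J (ZMod p) H r' := by
    intro g hg
    simp only [μ, dif_pos hg]
    exact (h10 g hg).choose_spec
  refine ⟨μ, ?_, ?_, ?_⟩
  · intro g hg h hh
    have h11 := hμ _ (mul_mem hg hh)
    rw [av_mul he hg] at h11
    have h12 := sub_mem (add_mem (hμ g hg) (hμ h hh)) h11
    have h13 : av e g - μ g • v + (av e h - μ h • v) - (av e g + av e h - μ (g * h) • v) =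
        (μ (g * h) - (μ g + μ h)) • v := by
      rw [sub_smul, add_smul]; abel
    rw [h13] at h12
    exact sub_eq_zero.1 (huniq _ h12)
  · intro g hg
    have h11 := hμ g hg
    constructor
    · intro h0
      rw [h0, zero_smul, sub_zero, ← hSJ'] at h11
      obtain ⟨m, hm, hmg⟩ := h11
      have h12 : g * m⁻¹ ∈ Gs p H (i + 1) := by
        have hgm : g * m⁻¹ ∈ Gs p H i := mul_mem hg (inv_mem (Ms_le H i hm))
        rw [mem_Gs_succ c hi he he' hgm]
        have h13 := av_mul he hgm m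
        rw [inv_mul_cancel_right, hmg] at h13
        exact (left_eq_add.1 (by rw [add_comm]; exact h13))
      have h14 := mul_mem (Gs_succ_le_Ms H i h12) hm
      rwa [inv_mul_cancel_right] at h14
    · intro hgM
      have h12 : av e g ∈ S' := ⟨g, hgM, rfl⟩
      rw [hSJ'] at h12
      have h13 := sub_mem h12 h11
      rw [sub_sub_cancel] at h13
      exact huniq _ h13
  · rw [← hSJ] at hv
    obtain ⟨g, hg, hgv⟩ := hv
    refine ⟨g, hg, ?_⟩
    intro h0
    have h11 := hμ g hg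
    rw [h0, zero_smul, sub_zero, hgv] at h11
    exact hv' h11

end finite

end Pool.Agent.Helper34.Coclass
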